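import Mathlib

set_option autoImplicit false

open Polynomial

namespace Pool.Agent.H478Z.FM

section poly
variable {K : Type*} [NormedField K] [IsUltrametricDist K]

theorem norm_coeff_prod_le (δ : ℝ) (hδ : 0 ≤ δ) (s : Multiset K) (hs : ∀ b ∈ s, ‖b‖ ≤ δ) :
    ∀ k, k ≤ s.card → ‖((s.map fun t => X - C t).prod).coeff k‖ ≤ δ ^ (s.card - k) := by
  induction s using Multiset.induction_on with
  | empty =>
    intro k hk
    have : k = 0 := by simpa using hk
    subst this
    simp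
  | cons b s ih =>
    intro k hk
    have hb : ‖b‖ ≤ δ := hs b (Multiset.mem_cons_self _ _)
    have ih' := ih (fun c hc => hs c (Multiset.mem_cons_of_mem hc))
    rw [Multiset.map_cons, Multiset.prod_cons, Multiset.card_cons]
    rw [Multiset.card_cons] at hk
    set P := (s.map fun t => X - C t).prod with hP
    have hdeg : P.natDegree = s.card := by
      rw [hP]; exact natDegree_multiset_prod_X_sub_C_eq_card s
    have h2 : ∀ j, j ≤ s.card + 1 → ‖b * P.coeff j‖ ≤ δ ^ (s.card + 1 - j) := by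
      intro j hj
      by_cases hj' : j ≤ s.card
      · rw [norm_mul, show s.card + 1 - j = (s.card - j) + 1 by omega, pow_succ, mul_comm]
        exact mul_le_mul (ih' j hj') hb (norm_nonneg _) (by positivity)
      · rw [coeff_eq_zero_of_natDegree_lt (by omega), mul_zero, norm_zero]
        positivity
    rw [sub_mul, coeff_sub, coeff_C_mul]
    cases k with
    | zero =>
      rw [coeff_X_mul_zero, zero_sub, norm_neg]
      exact h2 0 hk
    | succ k =>
      rw [coeff_X_mul, sub_eq_add_neg]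
      refine (IsUltrametricDist.norm_add_le_max _ _).trans (max_le ?_ ?_)
      · rw [show s.card + 1 - (k + 1) = s.card - k by omega]
        exact ih' k (by omega)
      · rw [norm_neg]
        exact h2 (k + 1) hk

theorem exists_root_hasse [IsAlgClosed K] [CharZero K] (f : K[X]) (hf : f.Monic) (α : K) (δ : ℝ)
    (hδ : 0 ≤ δ) (hr : ∀ β, f.IsRoot β → ‖β - α‖ ≤ δ) (q : ℕ) (hq : q < f.natDegree) :
    ∃ β, (hasseDeriv q f).IsRoot β ∧
      ‖((f.natDegree.choose q : ℕ) : K)‖ * ‖β - α‖ ^ (f.natDegree - q) ≤ δ ^ (f.natDegree - q) := by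
  set n := f.natDegree with hn
  set h := hasseDeriv q f with hh
  have hdeg : h.natDegree = n - q := natDegree_hasseDeriv f q
  have hlc : h.leadingCoeff = (n.choose q : K) := by
    rw [leadingCoeff, hdeg, hh, hasseDeriv_coeff, Nat.sub_add_cancel hq.le]
    have : f.coeff n = 1 := hf
    rw [this, mul_one]
  -- the value at `α`
  have hval : ‖h.eval α‖ ≤ δ ^ (n - q) := by
    rw [hh, ← taylor_coeff]
    have hm : (taylor α f).Monic := by
      rw [Monic, leadingCoeff_taylor]; exact hf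
    have hsp : (taylor α f).Splits := IsAlgClosed.splits _
    have hc : (taylor α f).roots.card = n := by
      rw [← hsp.natDegree_eq_card_roots, natDegree_taylor]
    rw [hsp.eq_prod_roots_of_monic hm]
    have := norm_coeff_prod_le δ hδ (taylor α f).roots (by
      intro b hb
      have h1 : (taylor α f).IsRoot b := isRoot_of_mem_roots hb
      rw [IsRoot, taylor_eval] at h1
      simpa using hr (b + α) h1) q (by rw [hc]; exact hq.le)
    rw [hc] at this
    exact this
  have hsp : h.Splits := IsAlgClosed.splits _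
  have hc : h.roots.card = n - q := by rw [← hsp.natDegree_eq_card_roots, hdeg]
  have hne : h.roots ≠ 0 := by
    intro h0
    rw [h0] at hc
    simp at hc
    omega
  obtain ⟨β, hβ, hmin⟩ := Multiset.exists_min_image (fun β : K => ‖β - α‖) hne
  refine ⟨β, isRoot_of_mem_roots hβ, le_trans ?_ hval⟩
  rw [hsp.eval_eq_prod_roots, norm_mul, hlc]
  refine mul_le_mul_of_nonneg_left ?_ (norm_nonneg _)
  rw [← hc]
  have key : ∀ s : Multiset K, (∀ b ∈ s, ‖β - α‖ ≤ ‖b - α‖) →
      ‖β - α‖ ^ s.card ≤ ‖(s.map fun a => α - a).prod‖ := by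
    intro s
    induction s using Multiset.induction_on with
    | empty => simp
    | cons b s ih =>
      intro hs
      rw [Multiset.map_cons, Multiset.prod_cons, Multiset.card_cons, norm_mul, pow_succ, mul_comm]
      refine mul_le_mul ?_ (ih fun c hc => hs c (Multiset.mem_cons_of_mem hc)) (by positivity)
        (norm_nonneg _)
      rw [norm_sub_rev α b]
      exact hs b (Multiset.mem_cons_self _ _)
  exact key _ hmin

end poly

theorem exists_good_q (p : ℕ) [hp : Fact p.Prime] (n : ℕ) (hn : 2 ≤ n) :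
    ∃ q, 1 ≤ q ∧ q < n ∧ (¬ p ∣ n.choose q ∨ (n = p * q ∧ ∃ m, ¬ p ∣ m ∧ n.choose q = p * m)) := by
  obtain ⟨k, m, hm, rfl⟩ := Nat.exists_eq_pow_mul_and_not_dvd (n := n) (by omega) p hp.out.ne_one
  by_cases hm1 : m = 1
  · subst hm1
    rw [mul_one] at hn ⊢
    cases k with
    | zero => simp at hn
    | succ k =>
      have hlt : p ^ k < p ^ (k + 1) := Nat.pow_lt_pow_right hp.out.one_lt (Nat.lt_succ_self k)
      have hpos : 0 < p ^ k := pow_pos hp.out.pos k
      refine ⟨p ^ k, hpos, hlt, Or.inr ⟨by ring, ?_⟩⟩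
      have h1 := Nat.factorization_choose_prime_pow (n := k + 1) hp.out hlt.le hpos.ne'
      rw [Nat.factorization_pow_self hp.out] at h1
      have h2 : ((p ^ (k + 1)).choose (p ^ k)).factorization p = 1 := by omega
      have h3 : (p ^ (k + 1)).choose (p ^ k) ≠ 0 := (Nat.choose_pos hlt.le).ne'
      refine ⟨ordCompl[p] ((p ^ (k + 1)).choose (p ^ k)), Nat.not_dvd_ordCompl hp.out h3, ?_⟩
      have h4 := Nat.ordProj_mul_ordCompl_eq_self ((p ^ (k + 1)).choose (p ^ k)) p
      rw [h2, pow_one] at h4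
      rw [h2, pow_one]
      exact h4.symm
  · have hm0 : m ≠ 0 := by rintro rfl; simp at hm
    have hpos : 0 < p ^ k := pow_pos hp.out.pos k
    refine ⟨p ^ k, hpos, by nlinarith [Nat.pos_of_ne_zero hm0, (by omega : 2 ≤ m)], Or.inl ?_⟩
    have h1 := Choose.choose_pow_mul_pow_mul_modEq_choose_nat (p := p) (k := k) (a := m) (b := 1)
    rw [mul_one, Nat.choose_one_right] at h1
    intro h
    exact hm ((h1.dvd_iff dvd_rfl).1 h)

section ax
variable {F K : Type*} [Field F] [NormedField K] [IsUltrametricDist K] [Algebra F K]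
  [IsAlgClosed K] [Algebra.IsAlgebraic F K] [CharZero K]

theorem ax_aux (p : ℕ) [hp : Fact p.Prime] (hp1 : ‖(p : K)‖ = (p : ℝ)⁻¹)
    (hp2 : ∀ m : ℕ, ¬ p ∣ m → ‖(m : K)‖ = 1)
    (hiso : ∀ (σ : K ≃ₐ[F] K) (x : K), ‖σ x‖ = ‖x‖) (n : ℕ) :
    ∀ (α : K) (δ : ℝ), (minpoly F α).natDegree = n → (∀ σ : K ≃ₐ[F] K, ‖σ α - α‖ ≤ δ) →
      ∃ a : F, ‖α - algebraMap F K a‖ ≤ δ * (p : ℝ) ^ ((p : ℝ) * (1 - 1 / (n : ℝ))) := by
  have hcl : IsAlgClosure F K := ⟨inferInstance, inferInstance⟩
  have hp0 : (1 : ℝ) < p := by exact_mod_cast hp.out.one_lt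
  induction n using Nat.strong_induction_on with
  | _ n ih =>
  intro α δ hn hδ
  have hδ0 : 0 ≤ δ := (norm_nonneg _).trans (hδ 1)
  have hint : IsIntegral F α := Algebra.IsIntegral.isIntegral α
  have hpos : 0 < n := hn ▸ minpoly.natDegree_pos hint
  by_cases hn1 : n = 1
  · subst hn1
    obtain ⟨a, ha⟩ := minpoly.natDegree_eq_one_iff.1 hn
    refine ⟨a, ?_⟩
    rw [ha, sub_self, norm_zero]
    positivity
  obtain ⟨q, hq1, hqn, hq⟩ := exists_good_q p n (by omega)
  set f := (minpoly F α).map (algebraMap F K) with hf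
  have hfm : f.Monic := (minpoly.monic hint).map _
  have hfd : f.natDegree = n := by rw [hf, natDegree_map, hn]
  obtain ⟨β, hβ, hβn⟩ := exists_root_hasse f hfm α δ hδ0 (by
    intro β hβ
    have h1 : aeval β (minpoly F α) = 0 := by
      rw [IsRoot, hf, eval_map_algebraMap] at hβ
      exact hβ
    obtain ⟨σ, hσ⟩ := minpoly.exists_algEquiv_of_root' hint.isAlgebraic h1
    rw [← hσ]
    exact hδ σ) q (by rw [hfd]; exact hqn)
  rw [hfd] at hβn
  have hFz : CharZero F := (RingHom.charZero_iff (algebraMap F K).injective).2 inferInstance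
  -- the degree of `β`
  have hβint : IsIntegral F β := Algebra.IsIntegral.isIntegral β
  have hmap : hasseDeriv q f = (hasseDeriv q (minpoly F α)).map (algebraMap F K) := by
    ext j
    simp [hf, hasseDeriv_coeff]
  have hd0 : (hasseDeriv q (minpoly F α)).natDegree = n - q := by rw [natDegree_hasseDeriv, hn]
  have hβd : (minpoly F β).natDegree ≤ n - q := by
    rw [← hd0]
    refine natDegree_le_of_dvd (minpoly.dvd F β ?_) ?_
    · rw [hmap, IsRoot, eval_map_algebraMap] at hβ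
      exact hβ
    · intro h0
      rw [h0] at hd0
      simp at hd0
      omega
  set m := (minpoly F β).natDegree with hm
  have hmpos : 0 < m := minpoly.natDegree_pos hβint
  have hnq : 0 < n - q := by omega
  -- the factor lost at this step
  obtain ⟨t, ht0, ht1, ht2⟩ : ∃ t : ℝ, 0 ≤ t ∧ ‖β - α‖ ≤ δ * (p : ℝ) ^ t ∧
      t + (p : ℝ) * (1 - 1 / (m : ℝ)) ≤ (p : ℝ) * (1 - 1 / (n : ℝ)) := by
    have hm' : (0 : ℝ) < m := by exact_mod_cast hmpos
    have hmn : (m : ℝ) ≤ ((n - q : ℕ) : ℝ) := by exact_mod_cast hβd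
    have hnq' : (0 : ℝ) < ((n - q : ℕ) : ℝ) := by exact_mod_cast hnq
    have h1 : 1 / ((n - q : ℕ) : ℝ) ≤ 1 / (m : ℝ) := one_div_le_one_div_of_le hm' hmn
    rcases hq with hq | ⟨hq, w, hw, hw'⟩
    · refine ⟨0, le_rfl, ?_, ?_⟩
      · rw [hp2 _ hq, one_mul] at hβn
        rw [Real.rpow_zero, mul_one]
        exact (pow_le_pow_iff_left₀ (norm_nonneg _) hδ0 hnq.ne').1 hβn
      · have h2 : 1 / (n : ℝ) ≤ 1 / ((n - q : ℕ) : ℝ) :=
          one_div_le_one_div_of_le hnq' (by exact_mod_cast Nat.sub_le n q)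
        nlinarith
    · refine ⟨1 / ((n - q : ℕ) : ℝ), by positivity, ?_, ?_⟩
      · rw [hw', Nat.cast_mul, norm_mul, hp1, hp2 _ hw, mul_one] at hβn
        refine (pow_le_pow_iff_left₀ (norm_nonneg _) (by positivity) hnq.ne').1 ?_
        rw [mul_pow, ← Real.rpow_natCast ((p : ℝ) ^ (1 / ((n - q : ℕ) : ℝ))),
          ← Real.rpow_mul (by positivity), one_div_mul_cancel hnq'.ne', Real.rpow_one]
        rw [inv_mul_le_iff₀ (by positivity)] at hβn
        linarith
      · have hq' : (0 : ℝ) < q := by exact_mod_cast hq1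
        have e1 : ((n - q : ℕ) : ℝ) = ((p : ℝ) - 1) * q := by
          rw [Nat.cast_sub hqn.le, hq]; push_cast; ring
        have e2 : (n : ℝ) = p * q := by rw [hq]; push_cast; ring
        have h3 : 1 / ((n - q : ℕ) : ℝ) + (p : ℝ) * (1 - 1 / ((n - q : ℕ) : ℝ))
            = (p : ℝ) * (1 - 1 / (n : ℝ)) := by
          rw [e1, e2]
          have : (p : ℝ) - 1 ≠ 0 := by linarith
          field_simp
          ring
        nlinarith
  have hpt : 1 ≤ (p : ℝ) ^ t := Real.one_le_rpow hp0.le ht0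
  obtain ⟨a, ha⟩ := ih m (by omega) β (δ * (p : ℝ) ^ t) rfl (by
    intro σ
    have e : σ β - β = (σ (β - α) + (σ α - α)) + -(β - α) := by rw [map_sub]; ring
    rw [e]
    refine (IsUltrametricDist.norm_add_le_max _ _).trans (max_le ?_ (by rwa [norm_neg]))
    refine (IsUltrametricDist.norm_add_le_max _ _).trans (max_le (by rwa [hiso]) ?_)
    exact (hδ σ).trans (le_mul_of_one_le_right hδ0 hpt))
  refine ⟨a, ?_⟩
  have hm1 : 0 ≤ (p : ℝ) * (1 - 1 / (m : ℝ)) := by
    have : (1 : ℝ) ≤ m := by exact_mod_cast hmpos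
    have h2 : 1 / (m : ℝ) ≤ 1 := by rw [div_le_one (by linarith)]; exact this
    nlinarith
  have e : α - algebraMap F K a = -(β - α) + (β - algebraMap F K a) := by ring
  rw [e]
  refine (IsUltrametricDist.norm_add_le_max _ _).trans (max_le ?_ ?_)
  · rw [norm_neg]
    refine ht1.trans (mul_le_mul_of_nonneg_left ?_ hδ0)
    exact Real.rpow_le_rpow_of_exponent_le hp0.le (by linarith)
  · refine ha.trans ?_
    rw [mul_assoc, ← Real.rpow_add (by linarith)]
    exact mul_le_mul_of_nonneg_left (Real.rpow_le_rpow_of_exponent_le hp0.le ht2) hδ0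

/-- Ax's lemma. -/
theorem ax (p : ℕ) [hp : Fact p.Prime] (hp1 : ‖(p : K)‖ = (p : ℝ)⁻¹)
    (hp2 : ∀ m : ℕ, ¬ p ∣ m → ‖(m : K)‖ = 1)
    (hiso : ∀ (σ : K ≃ₐ[F] K) (x : K), ‖σ x‖ = ‖x‖) (α : K) (δ : ℝ)
    (hδ : ∀ σ : K ≃ₐ[F] K, ‖σ α - α‖ ≤ δ) :
    ∃ a : F, ‖α - algebraMap F K a‖ ≤ δ * (p : ℝ) ^ (p : ℝ) := by
  obtain ⟨a, ha⟩ := ax_aux p hp1 hp2 hiso _ α δ rfl hδ
  have hp0 : (1 : ℝ) < p := by exact_mod_cast hp.out.one_lt
  refine ⟨a, ha.trans (mul_le_mul_of_nonneg_left ?_ ((norm_nonneg _).trans (hδ 1)))⟩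
  refine Real.rpow_le_rpow_of_exponent_le hp0.le ?_
  have : (0 : ℝ) ≤ 1 / ((minpoly F α).natDegree : ℝ) := by positivity
  nlinarith

end ax

end Pool.Agent.H478Z.FM
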