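import Mathlib

/-!
Functoriality of Mathlib's de Rham period ring `BDeRham R p` in the ring `R`, the resulting action
of the absolute Galois group of `ℚ_p` on `B_dR = BDeRham 𝓞_ℂ_[p] p`, and the restriction of local
Galois elements to the absolute Galois group of `ℚ`.
-/

set_option autoImplicit false

open Ideal WittVector

noncomputable section

namespace Pool.Agent.H478Z.FM

section adic

variable {S : Type} [CommRing S] (I : Ideal S)

/-- The ring endomorphism `f` maps the ideal `I` into itself. -/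
def Preserves (f : S →+* S) : Prop := I ≤ I.comap f

/-- The endomorphism of `S / I ^ n` induced by a ring endomorphism of `S` that preserves `I`. -/
def levelMap (f : S →+* S) (hf : Preserves I f) (n : ℕ) : S ⧸ I ^ n →+* S ⧸ I ^ n :=
  Ideal.quotientMap _ f ((Ideal.pow_right_mono hf n).trans (Ideal.le_comap_pow _ n))

theorem factor_evalₐ {m n : ℕ} (hle : m ≤ n) (x : AdicCompletion I S) :
    Ideal.Quotient.factorPow I hle (AdicCompletion.evalₐ I n x) = AdicCompletion.evalₐ I m x := by
  induction x using AdicCompletion.induction_on with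
  | h a =>
    rw [AdicCompletion.evalₐ_mk, AdicCompletion.evalₐ_mk]
    have h := a.2 hle
    rw [smul_eq_mul, mul_top, SModEq.sub_mem, ← Ideal.Quotient.eq] at h
    exact h.symm

/-- The map `lim S / I ^ m → S / I ^ n → S / I ^ n`, the second arrow being induced by `f`. -/
def levelProj (f : S →+* S) (hf : Preserves I f) (n : ℕ) : AdicCompletion I S →+* S ⧸ I ^ n :=
  (levelMap I f hf n).comp (AdicCompletion.evalₐ I n).toRingHom

theorem levelMap_compat (f : S →+* S) (hf : Preserves I f) {m n : ℕ} (hle : m ≤ n) :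
    (Ideal.Quotient.factorPow I hle).comp (levelProj I f hf n) = levelProj I f hf m := by
  refine RingHom.ext fun x => ?_
  obtain ⟨y, hy⟩ := Ideal.Quotient.mk_surjective (AdicCompletion.evalₐ I n x)
  change Ideal.Quotient.factorPow _ hle (levelMap I f hf n (AdicCompletion.evalₐ I n x)) =
    levelMap I f hf m (AdicCompletion.evalₐ I m x)
  rw [← factor_evalₐ I hle x, ← hy]
  rfl

/-- The endomorphism of the `I`-adic completion `lim S / I ^ n` induced by a ring endomorphism of
`S` that preserves `I`. -/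
def adicMap (f : S →+* S) (hf : Preserves I f) : AdicCompletion I S →+* AdicCompletion I S :=
  AdicCompletion.liftRingHom I (levelProj I f hf) (levelMap_compat I f hf)

theorem evalₐ_adicMap (f : S →+* S) (hf : Preserves I f) (n : ℕ) (x : AdicCompletion I S) :
    AdicCompletion.evalₐ I n (adicMap I f hf x) = levelMap I f hf n (AdicCompletion.evalₐ I n x) :=
  AdicCompletion.evalₐ_liftRingHom I _ (levelMap_compat I f hf) n x

theorem adicMap_of (f : S →+* S) (hf : Preserves I f) (a : S) :
    adicMap I f hf (AdicCompletion.of I S a) = AdicCompletion.of I S (f a) := by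
  refine AdicCompletion.ext_evalₐ fun n => ?_
  rw [evalₐ_adicMap, AdicCompletion.evalₐ_of, AdicCompletion.evalₐ_of]
  rfl

/-- The submonoid of the `I`-adic completion generated by the images of the generators of the
ideal `I`. -/
def denomsOf : Submonoid (AdicCompletion I S) :=
  Submonoid.closure <| AdicCompletion.of I S '' {a | I = Ideal.span {a}}

/-- The `I`-adic completion with the generators of `I` inverted. -/
def Frac : Type := Localization (denomsOf I)

instance fracRing : CommRing (Frac I) := (inferInstance : CommRing (Localization (denomsOf I)))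

/-- The endomorphism `F` of the completion maps `denomsOf I` into itself. -/
def PreservesDenoms (F : AdicCompletion I S →+* AdicCompletion I S) : Prop :=
  denomsOf I ≤ (denomsOf I).comap F

/-- The endomorphism of `Frac I` induced by an endomorphism of the completion. -/
def fracMap (F : AdicCompletion I S →+* AdicCompletion I S) (hd : PreservesDenoms I F) :
    Frac I →+* Frac I :=
  IsLocalization.map (S := Localization (denomsOf I)) (Localization (denomsOf I)) F hd

/-- The natural map from `S` to its completion and then to `Frac I`. -/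
def toFrac : S →+* Frac I :=
  (algebraMap (AdicCompletion I S) (Localization (denomsOf I))).comp
    (algebraMap S (AdicCompletion I S))

theorem denomsOf_le_comap (f g : S →+* S) (hf : Preserves I f) (hg : Preserves I g)
    (hfg : ∀ x, f (g x) = x) : PreservesDenoms I (adicMap I f hf) := by
  rw [PreservesDenoms, denomsOf, Submonoid.closure_le]
  rintro _ ⟨a, ha, rfl⟩
  refine Submonoid.subset_closure ⟨f a, ?_, (adicMap_of _ _ _ a).symm⟩
  have ha' : I = Ideal.span {a} := ha
  apply le_antisymm
  · intro x hx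
    have h1 := hg hx
    rw [mem_comap, ha', mem_span_singleton] at h1
    rw [mem_span_singleton, ← hfg x]
    exact map_dvd _ h1
  · rw [span_le, Set.singleton_subset_iff]
    exact hf (ha' ▸ mem_span_singleton_self a)

end adic

section functoriality

variable {R : Type} [CommRing R] (p : ℕ) [Fact p.Prime] [Fact ¬IsUnit (p : R)]

/-- The map `R/p → R/p` induced by a ring endomorphism of `R`. -/
def modPMap (φ : R →+* R) : ModP R p →+* ModP R p :=
  Ideal.quotientMap (span {(p : R)}) φ (by
    rw [span_le, Set.singleton_subset_iff, SetLike.mem_coe, mem_comap, map_natCast]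
    exact mem_span_singleton_self _)

/-- The induced endomorphism of the tilt `R♭`. -/
def tiltMap (φ : R →+* R) : PreTilt R p →+* PreTilt R p :=
  Perfection.map p (modPMap p φ)

/-- The induced endomorphism of `A_inf = W(R♭)`. -/
def ainfMap (φ : R →+* R) : WittVector p (PreTilt R p) →+* WittVector p (PreTilt R p) :=
  WittVector.map (tiltMap p φ)

variable (R) in
/-- The ring `A_inf[1/p]`. -/
abbrev AinfInv : Type := Localization.Away (p : WittVector p (PreTilt R p))

/-- The induced endomorphism of `A_inf[1/p]`. -/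
def ainfInvMap (φ : R →+* R) : AinfInv R p →+* AinfInv R p :=
  Localization.awayLift ((algebraMap _ _).comp (ainfMap p φ)) (p : WittVector p (PreTilt R p))
    (by simpa using IsLocalization.Away.algebraMap_isUnit (p : WittVector p (PreTilt R p)))

theorem ainfInvMap_algebraMap (φ : R →+* R) (x : WittVector p (PreTilt R p)) :
    ainfInvMap p φ (algebraMap _ _ x) = algebraMap _ _ (ainfMap p φ x) := by
  unfold ainfInvMap
  exact IsLocalization.Away.lift_eq _ _ x

theorem ainfInvMap_symm (φ : R ≃+* R) (x : Localization.Away (p : WittVector p (PreTilt R p))) :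
    ainfInvMap p (φ : R →+* R) (ainfInvMap p (φ.symm : R →+* R) x) = x := by
  have h : (ainfInvMap p (φ : R →+* R)).comp (ainfInvMap p (φ.symm : R →+* R)) = RingHom.id _ := by
    refine IsLocalization.ringHom_ext (Submonoid.powers (p : WittVector p (PreTilt R p))) ?_
    refine RingHom.ext fun a => ?_
    simp only [RingHom.comp_apply, ainfInvMap_algebraMap, RingHom.id_apply]
    congr 1
    refine WittVector.ext fun n => ?_
    simp only [ainfMap, WittVector.map_coeff]
    refine Perfection.ext fun m => ?_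
    obtain ⟨y, hy⟩ := Ideal.Quotient.mk_surjective (Perfection.coeff _ p m (a.coeff n))
    change modPMap p _ (modPMap p _ (Perfection.coeff _ p m (a.coeff n))) = _
    rw [← hy]
    simp [modPMap]
  exact RingHom.congr_fun h x

variable [IsAdicComplete (span {(p : R)}) R]

theorem untilt_tiltMap (φ : R →+* R) (x : PreTilt R p) :
    (tiltMap p φ x).untilt = φ x.untilt := by
  refine Perfection.teichmuller_spec fun n => ?_
  obtain ⟨y, hy⟩ := Ideal.Quotient.mk_surjective (Perfection.coeff _ p n x)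
  refine ⟨φ y, ?_, ?_⟩
  · change _ = modPMap p φ (Perfection.coeff _ p n x)
    rw [← hy]
    simp [modPMap]
  · have h := (Perfection.teichmuller_sModEq hy).symm
    rw [SModEq.sub_mem, span_singleton_pow, mem_span_singleton] at h ⊢
    have h2 := map_dvd φ h
    rw [map_pow, map_natCast, map_sub, map_pow] at h2
    exact h2

/-- Fontaine's map `θ` is equivariant. -/
theorem theta_ainfMap (φ : R →+* R) (x : WittVector p (PreTilt R p)) :
    fontaineTheta R p (ainfMap p φ x) = φ (fontaineTheta R p x) := by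
  rw [IsHausdorff.eq_iff_smodEq (I := span {(p : R)})]
  intro n
  have h := eq_of_apply_teichmuller_eq
    ((Ideal.Quotient.mk (span {(p : R)} ^ n)).comp ((fontaineTheta R p).comp (ainfMap p φ)))
    ((Ideal.Quotient.mk (span {(p : R)} ^ n)).comp (φ.comp (fontaineTheta R p)))
    ⟨n, by
      rw [← map_natCast (Ideal.Quotient.mk (span {(p : R)} ^ n)), ← map_pow,
        Ideal.Quotient.eq_zero_iff_mem]
      exact Ideal.pow_mem_pow (mem_span_singleton_self _) _⟩
    (fun y => by simp [ainfMap, untilt_tiltMap])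
  rw [smul_eq_mul, mul_top, SModEq.sub_mem, ← Ideal.Quotient.eq]
  exact RingHom.congr_fun h x

theorem thetaInv_algebraMap (x : WittVector p (PreTilt R p)) :
    fontaineThetaInvertP R p (algebraMap _ _ x) = algebraMap _ _ (fontaineTheta R p x) := by
  unfold fontaineThetaInvertP
  exact IsLocalization.Away.lift_eq _ _ x

variable (R) in
/-- The kernel of Fontaine's map `θ` on `A_inf[1/p]`. -/
abbrev kerTheta : Ideal (AinfInv R p) := RingHom.ker (fontaineThetaInvertP R p)

theorem ker_le_comap (φ : R →+* R) : Preserves (kerTheta R p) (ainfInvMap p φ) := by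
  let φ' : Localization.Away (p : R) →+* Localization.Away (p : R) :=
    Localization.awayLift ((algebraMap _ _).comp φ) (p : R)
      (by simpa using IsLocalization.Away.algebraMap_isUnit (p : R))
  have hφ' : ∀ y, φ' (algebraMap _ _ y) = algebraMap _ _ (φ y) := fun y =>
    IsLocalization.Away.lift_eq _ _ y
  have h : (fontaineThetaInvertP R p).comp (ainfInvMap p φ) =
      φ'.comp (fontaineThetaInvertP R p) := by
    refine IsLocalization.ringHom_ext (Submonoid.powers (p : WittVector p (PreTilt R p))) ?_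
    refine RingHom.ext fun a => ?_
    simp only [RingHom.comp_apply, ainfInvMap_algebraMap, thetaInv_algebraMap, theta_ainfMap, hφ']
  intro x hx
  rw [mem_comap, RingHom.mem_ker, ← RingHom.comp_apply, h, RingHom.comp_apply,
    RingHom.mem_ker.1 hx, map_zero]

/-- The ring structure of Mathlib's `BDeRham R p`, which is by definition `Frac (ker θ)`: the
completion `B_dR^+` of `A_inf[1/p]` along `ker θ`, with the generators of `ker θ` inverted. -/
instance bdrCommRing : CommRing (BDeRham R p) := fracRing (kerTheta R p)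

theorem denoms_le_comap (φ : R →+* R) (hφ : Function.Bijective φ) :
    PreservesDenoms (kerTheta R p) (adicMap (kerTheta R p) (ainfInvMap p φ) (ker_le_comap p φ)) :=
  denomsOf_le_comap _ _ (ainfInvMap p ((RingEquiv.ofBijective φ hφ).symm : R →+* R)) _
    (ker_le_comap p _) (ainfInvMap_symm p (RingEquiv.ofBijective φ hφ))

/-- The map of `B_dR` to itself induced by a bijective ring endomorphism of `R`. -/
def bdrMap (φ : R →+* R) (hφ : Function.Bijective φ) : BDeRham R p →+* BDeRham R p :=
  fracMap (kerTheta R p) (adicMap (kerTheta R p) (ainfInvMap p φ) (ker_le_comap p φ))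
    (denoms_le_comap p φ hφ)

variable (R) in
/-- The structure map `ℤ_p = W(𝔽_p) → W(R♭)`. -/
def zpToAinf : ℤ_[p] →+* WittVector p (PreTilt R p) :=
  (WittVector.map (ZMod.castHom (dvd_refl p) (PreTilt R p))).comp (WittVector.equiv p).symm.toRingHom

variable (R) in
/-- The structure map `ℤ_p → W(R♭) → W(R♭)[1/p]`. -/
def zpToAinfInv : ℤ_[p] →+* AinfInv R p :=
  (algebraMap (WittVector p (PreTilt R p)) (AinfInv R p)).comp (zpToAinf R p)

variable (R) in
/-- The structure map `ℤ_p → W(R♭)[1/p] → B_dR^+ → B_dR`. -/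
def zpToBdR : ℤ_[p] →+* BDeRham R p :=
  (toFrac (kerTheta R p)).comp (zpToAinfInv R p)

end functoriality

section local_field

variable (p : ℕ) [hp : Fact p.Prime]

/-- The ring of integers of `ℂ_p`. -/
abbrev OC : Type := 𝓞_ℂ_[p]

theorem norm_eq_v (x : ℂ_[p]) : ‖x‖ = ((Valued.v x : NNReal) : ℝ) := by
  rw [PadicComplex.norm_eq_norm, Valued.v.norm_def, PadicComplex.RankOne.hom_eq_embedding,
    Valuation.embedding_restrict]

theorem mem_int_iff (x : ℂ_[p]) : x ∈ 𝓞_ℂ_[p] ↔ ‖x‖ ≤ 1 := by
  rw [norm_eq_v]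
  exact Iff.rfl

theorem norm_p_C : ‖(p : ℂ_[p])‖ = (p : ℝ)⁻¹ := by
  rw [norm_eq_v, PadicComplex.valuation_p]
  simp

theorem dvd_iff_norm_le (x y : 𝓞_ℂ_[p]) : x ∣ y ↔ ‖(y : ℂ_[p])‖ ≤ ‖(x : ℂ_[p])‖ := by
  rw [norm_eq_v, norm_eq_v, NNReal.coe_le_coe]
  exact (Valuation.Integers.le_iff_dvd (PadicComplexInt.integers p)).symm

theorem mem_pow_iff (n : ℕ) (x : 𝓞_ℂ_[p]) :
    x ∈ span {(p : 𝓞_ℂ_[p])} ^ n ↔ ‖(x : ℂ_[p])‖ ≤ ((p : ℝ)⁻¹) ^ n := by
  rw [span_singleton_pow, mem_span_singleton, dvd_iff_norm_le, ← norm_p_C, ← norm_pow]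
  simp

instance notUnitP : Fact ¬IsUnit (p : OC p) := ⟨fun h => by
  have h1 := (dvd_iff_norm_le p _ _).1 (h.dvd (a := 1))
  have h2 : ‖((p : 𝓞_ℂ_[p]) : ℂ_[p])‖ = (p : ℝ)⁻¹ := by rw [← norm_p_C]; simp
  have h3 : (p : ℝ)⁻¹ < 1 := inv_lt_one_of_one_lt₀ (by exact_mod_cast hp.out.one_lt)
  rw [h2] at h1
  simp only [OneMemClass.coe_one, norm_one] at h1
  linarith⟩

instance completeInt : IsAdicComplete (span {(p : OC p)}) (OC p) where
  haus' x hx := by
    have h3 : (p : ℝ)⁻¹ < 1 := inv_lt_one_of_one_lt₀ (by exact_mod_cast hp.out.one_lt)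
    have h1 : ‖(x : ℂ_[p])‖ ≤ 0 :=
      ge_of_tendsto' (tendsto_pow_atTop_nhds_zero_of_lt_one (by positivity) h3) fun n => by
        have := hx n
        rwa [smul_eq_mul, mul_top, SModEq.zero, mem_pow_iff] at this
    exact Subtype.ext (norm_le_zero_iff.1 h1)
  prec' f hf := by
    have h3 : (p : ℝ)⁻¹ < 1 := inv_lt_one_of_one_lt₀ (by exact_mod_cast hp.out.one_lt)
    have h1 : ∀ m n, m ≤ n → ‖(f m : ℂ_[p]) - f n‖ ≤ ((p : ℝ)⁻¹) ^ m := fun m n h => by
      have := hf h
      rw [smul_eq_mul, mul_top, SModEq.sub_mem, mem_pow_iff] at this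
      exact this
    have hc : CauchySeq fun n => (f n : ℂ_[p]) :=
      cauchySeq_of_le_tendsto_0' _ (fun m n h => by rw [dist_eq_norm]; exact h1 m n h)
        (tendsto_pow_atTop_nhds_zero_of_lt_one (by positivity) h3)
    obtain ⟨L, hL⟩ := cauchySeq_tendsto_of_complete hc
    have hL1 : ‖L‖ ≤ 1 := le_of_tendsto' hL.norm fun n => (mem_int_iff p _).1 (f n).2
    refine ⟨⟨L, (mem_int_iff p _).2 hL1⟩, fun n => ?_⟩
    rw [smul_eq_mul, mul_top, SModEq.sub_mem, mem_pow_iff]
    exact le_of_tendsto (hL.const_sub (f n : ℂ_[p])).norm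
      (Filter.eventually_atTop.2 ⟨n, fun m hm => h1 n m hm⟩)

variable {p}

theorem isometry_gal (g : PadicAlgCl p ≃ₐ[ℚ_[p]] PadicAlgCl p) : Isometry g :=
  AddMonoidHomClass.isometry_of_norm g fun x => (spectralNorm_eq_of_equiv g x).symm

/-- The continuous extension to `ℂ_p` of an element of the absolute Galois group of `ℚ_p`. -/
def galC (g : PadicAlgCl p ≃ₐ[ℚ_[p]] PadicAlgCl p) : ℂ_[p] →+* ℂ_[p] :=
  UniformSpace.Completion.mapRingHom g.toRingEquiv.toRingHom (isometry_gal g).continuous

theorem galC_coe (g : PadicAlgCl p ≃ₐ[ℚ_[p]] PadicAlgCl p) (x : PadicAlgCl p) :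
    galC g x = (g x : PadicAlgCl p) :=
  UniformSpace.Completion.mapRingHom_coe _ x

theorem continuous_galC (g : PadicAlgCl p ≃ₐ[ℚ_[p]] PadicAlgCl p) : Continuous (galC g) :=
  UniformSpace.Completion.continuous_map

theorem norm_galC (g : PadicAlgCl p ≃ₐ[ℚ_[p]] PadicAlgCl p) (x : ℂ_[p]) : ‖galC g x‖ = ‖x‖ := by
  induction x using UniformSpace.Completion.induction_on with
  | hp => exact isClosed_eq (continuous_galC g).norm continuous_norm
  | ih a =>
    rw [galC_coe, PadicComplex.norm_extends, PadicComplex.norm_extends]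
    exact (spectralNorm_eq_of_equiv g a).symm

theorem galC_symm (g : PadicAlgCl p ≃ₐ[ℚ_[p]] PadicAlgCl p) (x : ℂ_[p]) :
    galC g.symm (galC g x) = x := by
  induction x using UniformSpace.Completion.induction_on with
  | hp => exact isClosed_eq ((continuous_galC g.symm).comp (continuous_galC g)) continuous_id
  | ih a => rw [galC_coe, galC_coe, AlgEquiv.symm_apply_apply]

theorem galC_mem (g : PadicAlgCl p ≃ₐ[ℚ_[p]] PadicAlgCl p) (x : ℂ_[p]) (hx : x ∈ 𝓞_ℂ_[p]) :
    galC g x ∈ 𝓞_ℂ_[p] :=
  (mem_int_iff p _).2 (by rw [norm_galC]; exact (mem_int_iff p _).1 hx)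

/-- The action of an element of the absolute Galois group of `ℚ_p` on the ring of integers of
`ℂ_p`: the restriction of `galC`. -/
def galO (g : PadicAlgCl p ≃ₐ[ℚ_[p]] PadicAlgCl p) : OC p →+* OC p :=
  (galC g).restrict 𝓞_ℂ_[p] 𝓞_ℂ_[p] (galC_mem g)

theorem coe_galO (g : PadicAlgCl p ≃ₐ[ℚ_[p]] PadicAlgCl p) (x : OC p) :
    (galO g x : ℂ_[p]) = galC g x := rfl

theorem galO_bijective (g : PadicAlgCl p ≃ₐ[ℚ_[p]] PadicAlgCl p) :
    Function.Bijective (galO g) :=
  Function.bijective_iff_has_inverse.2 ⟨galO g.symm, fun x => Subtype.ext (galC_symm g x),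
    fun x => Subtype.ext (galC_symm g.symm x)⟩

variable (p) in
/-- Fontaine's ring `B_dR`. -/
def BdR : Type := BDeRham (OC p) p

instance bdrRing : CommRing (BdR p) := bdrCommRing p

/-- The action of an element of the absolute Galois group of `ℚ_p` on Fontaine's ring `B_dR`. -/
def galBdR (g : PadicAlgCl p ≃ₐ[ℚ_[p]] PadicAlgCl p) : BdR p →+* BdR p :=
  bdrMap p (galO g) (galO_bijective g)

variable (p) in
/-- The structure map `ℤ_p → B_dR`. -/
def zpBdR : ℤ_[p] →+* BdR p := zpToBdR (OC p) p

/-- The rank one representation `V = ℚ_p e`, `g e = ψ(g) e`, of the absolute Galois group of `ℚ_p`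
is de Rham: the space of invariants of `B_dR ⊗ V`, where `g (b ⊗ e) = g(b) ψ(g) ⊗ e`, is not
zero. -/
def IsDeRhamChar (ψ : (PadicAlgCl p ≃ₐ[ℚ_[p]] PadicAlgCl p) → ℤ_[p]ˣ) : Prop :=
  ∃ b : BdR p, b ≠ 0 ∧ ∀ g, galBdR g b * zpBdR p (ψ g : ℤ_[p]) = b

/-- `g` lies in the inertia group of `ℚ_p`: it acts trivially on the residue field of the algebraic
closure. -/
def IsInertia (g : PadicAlgCl p ≃ₐ[ℚ_[p]] PadicAlgCl p) : Prop :=
  ∀ x : PadicAlgCl p, ‖x‖ ≤ 1 → ‖g x - x‖ < 1

/-- `g` is a geometric Frobenius element: on the residue field it is the inverse of `x ↦ x ^ p`. -/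
def IsGeomFrob (g : PadicAlgCl p ≃ₐ[ℚ_[p]] PadicAlgCl p) : Prop :=
  ∀ x : PadicAlgCl p, ‖x‖ ≤ 1 → ‖g x ^ p - x‖ < 1

/-- `σ` is the restriction of `g` along the embedding `ι` of the algebraic closure of `ℚ`. -/
def IsRes (ι : AlgebraicClosure ℚ →+* PadicAlgCl p) (g : PadicAlgCl p ≃ₐ[ℚ_[p]] PadicAlgCl p)
    (σ : AlgebraicClosure ℚ ≃ₐ[ℚ] AlgebraicClosure ℚ) : Prop :=
  ∀ x, ι (σ x) = g (ι x)

theorem exists_res (ι : AlgebraicClosure ℚ →+* PadicAlgCl p)
    (g : PadicAlgCl p ≃ₐ[ℚ_[p]] PadicAlgCl p) : ∃! σ, IsRes ι g σ := by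
  have : IsAlgClosure ℚ (AlgebraicClosure ℚ) := AlgebraicClosure.instIsAlgClosure ℚ
  let _ : Algebra (AlgebraicClosure ℚ) (PadicAlgCl p) := ι.toAlgebra
  have : IsScalarTower ℚ (AlgebraicClosure ℚ) (PadicAlgCl p) :=
    IsScalarTower.of_algebraMap_eq' (Subsingleton.elim _ _)
  let g' : PadicAlgCl p ≃ₐ[ℚ] PadicAlgCl p :=
    AlgEquiv.ofRingEquiv (f := g.toRingEquiv) fun q => by
      rw [eq_ratCast (algebraMap ℚ (PadicAlgCl p)) q, map_ratCast]
  refine ⟨g'.restrictNormal (AlgebraicClosure ℚ), fun x => g'.restrictNormal_commutes _ x,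
    fun σ hσ => AlgEquiv.ext fun x => ι.injective ?_⟩
  rw [hσ x]
  exact (g'.restrictNormal_commutes (AlgebraicClosure ℚ) x).symm

/-- Restriction of an element `g` of the absolute Galois group of `ℚ_p` along an embedding `ι` of
the algebraic closure of `ℚ`: the unique `σ` with `ι ∘ σ = g ∘ ι`. -/
def res (ι : AlgebraicClosure ℚ →+* PadicAlgCl p) (g : PadicAlgCl p ≃ₐ[ℚ_[p]] PadicAlgCl p) :
    Field.absoluteGaloisGroup ℚ :=
  (exists_res ι g).exists.choose

theorem res_spec (ι : AlgebraicClosure ℚ →+* PadicAlgCl p)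
    (g : PadicAlgCl p ≃ₐ[ℚ_[p]] PadicAlgCl p) : IsRes ι g (res ι g) :=
  (exists_res ι g).exists.choose_spec

end local_field

end Pool.Agent.H478Z.FM
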