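import Mathlib
import Pool.Agent.H478Z.FM.Ax

set_option autoImplicit false

open Polynomial

namespace Pool.Agent.H478Z.FM

section roots
variable {K : Type*} [NormedField K]

theorem norm_root {ζ : K} {N : ℕ} (hN : N ≠ 0) (h : ζ ^ N = 1) : ‖ζ‖ = 1 := by
  have h1 : ‖ζ‖ ^ N = 1 := by rw [← norm_pow, h, norm_one]
  exact (pow_eq_one_iff_of_nonneg (norm_nonneg _) hN).1 h1

variable [IsUltrametricDist K]

theorem norm_one_sub_pow_le {ζ : K} (h : ‖ζ‖ ≤ 1) (i : ℕ) : ‖1 - ζ ^ i‖ ≤ ‖1 - ζ‖ := by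
  rw [← mul_neg_geom_sum, norm_mul]
  refine mul_le_of_le_one_right (norm_nonneg _) ?_
  refine IsUltrametricDist.norm_sum_le_of_forall_le_of_nonneg zero_le_one fun j _ => ?_
  rw [norm_pow]
  exact pow_le_one₀ (norm_nonneg _) h

theorem norm_sub_one_pow {p : ℕ} [hp : Fact p.Prime] {k : ℕ} {ζ : K}
    (hζ : IsPrimitiveRoot ζ (p ^ (k + 1))) : ‖ζ - 1‖ ^ (p ^ k * (p - 1)) = ‖(p : K)‖ := by
  have hN : p ^ (k + 1) ≠ 0 := pow_ne_zero _ hp.out.ne_zero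
  have : NeZero (p ^ (k + 1)) := ⟨hN⟩
  have h1 := eval_one_cyclotomic_prime_pow (R := K) (p := p) k
  rw [cyclotomic_eq_prod_X_sub_primitiveRoots hζ, eval_prod] at h1
  rw [← h1, norm_prod]
  have h2 : ∀ μ ∈ primitiveRoots (p ^ (k + 1)) K, ‖eval 1 (X - C μ)‖ = ‖ζ - 1‖ := by
    intro μ hμ
    have hμ' : IsPrimitiveRoot μ (p ^ (k + 1)) := (mem_primitiveRoots (Nat.pos_of_ne_zero hN)).1 hμ
    rw [eval_sub, eval_X, eval_C, norm_sub_rev ζ 1]
    obtain ⟨i, _, hi⟩ := hζ.eq_pow_of_pow_eq_one hμ'.pow_eq_one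
    obtain ⟨j, _, hj⟩ := hμ'.eq_pow_of_pow_eq_one hζ.pow_eq_one
    apply le_antisymm
    · rw [← hi]; exact norm_one_sub_pow_le (norm_root hN hζ.pow_eq_one).le i
    · conv_lhs => rw [← hj]
      exact norm_one_sub_pow_le (norm_root hN hμ'.pow_eq_one).le j
  rw [Finset.prod_congr rfl h2, Finset.prod_const, hζ.card_primitiveRoots,
    Nat.totient_prime_pow_succ hp.out]

end roots

variable {p : ℕ} [hp : Fact p.Prime]

theorem norm_p_K : ‖(p : PadicAlgCl p)‖ = (p : ℝ)⁻¹ := by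
  rw [← map_natCast (algebraMap ℚ_[p] (PadicAlgCl p)), PadicAlgCl.norm_extends, Padic.norm_p]

theorem norm_nat_K (m : ℕ) (hm : ¬ p ∣ m) : ‖(m : PadicAlgCl p)‖ = 1 := by
  rw [← map_natCast (algebraMap ℚ_[p] (PadicAlgCl p)), PadicAlgCl.norm_extends,
    Padic.norm_natCast_eq_one_iff]
  exact (Nat.Prime.coprime_iff_not_dvd hp.out).2 hm

theorem norm_gal (σ : PadicAlgCl p ≃ₐ[ℚ_[p]] PadicAlgCl p) (x : PadicAlgCl p) : ‖σ x‖ = ‖x‖ :=
  (spectralNorm_eq_of_equiv σ x).symm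

theorem ax_K (F : IntermediateField ℚ_[p] (PadicAlgCl p)) (α : PadicAlgCl p) (δ : ℝ)
    (hδ : ∀ σ : PadicAlgCl p ≃ₐ[ℚ_[p]] PadicAlgCl p, (∀ x ∈ F, σ x = x) → ‖σ α - α‖ ≤ δ) :
    ∃ a ∈ F, ‖α - a‖ ≤ δ * (p : ℝ) ^ (p : ℝ) := by
  obtain ⟨a, ha⟩ := ax (F := F) p norm_p_K norm_nat_K
    (fun σ x => norm_gal (σ.restrictScalars ℚ_[p]) x) α δ
    (fun σ => hδ (σ.restrictScalars ℚ_[p]) (fun x hx => σ.commutes ⟨x, hx⟩))
  exact ⟨a, a.2, ha⟩

/-- Orthogonality of the powers of a uniformizer of a totally ramified extension. -/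
theorem orth (π : PadicAlgCl p) (e : ℕ) (hπ : ‖π‖ ^ e = (p : ℝ)⁻¹) (a : ℕ → ℚ_[p]) :
    (∀ j < e, ‖a j‖ * ‖π‖ ^ j ≤ ‖∑ i ∈ Finset.range e, a i • π ^ i‖) ∧
    (∑ i ∈ Finset.range e, a i • π ^ i ≠ 0 →
      ∃ s : ℤ, ‖∑ i ∈ Finset.range e, a i • π ^ i‖ ^ e = (p : ℝ) ^ s) := by
  classical
  have hp1 : (1 : ℝ) < p := by exact_mod_cast hp.out.one_lt
  set s := (Finset.range e).filter fun i => a i ≠ 0 with hs
  have hsum : ∑ i ∈ Finset.range e, a i • π ^ i = ∑ i ∈ s, a i • π ^ i := by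
    rw [hs, Finset.sum_filter_of_ne]
    intro i _ hi h0
    rw [h0, zero_smul] at hi
    exact hi rfl
  have hterm : ∀ i, ‖a i • π ^ i‖ = ‖a i‖ * ‖π‖ ^ i := fun i => by rw [norm_smul, norm_pow]
  have hpow : ∀ i, a i ≠ 0 → ‖a i • π ^ i‖ ^ e = (p : ℝ) ^ (-(a i).valuation * e - i : ℤ) := by
    intro i hi
    rw [hterm, mul_pow, Padic.norm_eq_zpow_neg_valuation hi, ← pow_mul, mul_comm i e, pow_mul, hπ,
      zpow_sub₀ (by positivity), zpow_mul, zpow_natCast, zpow_natCast, inv_pow, div_eq_mul_inv]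
  rw [hsum]
  rcases s.eq_empty_or_nonempty with h0 | hne
  · refine ⟨fun j hj => ?_, fun h => absurd (by rw [h0]; simp) h⟩
    have : a j = 0 := by
      by_contra h
      have : j ∈ s := Finset.mem_filter.2 ⟨Finset.mem_range.2 hj, h⟩
      rw [h0] at this
      simp at this
    rw [this, norm_zero, zero_mul]
    exact norm_nonneg _
  have hsup := IsUltrametricDist.norm_sum_eq_sup'_of_pairwise_ne (f := fun i => a i • π ^ i) hne (by
    intro i hi j hj hij h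
    have hi' := Finset.mem_filter.1 hi
    have hj' := Finset.mem_filter.1 hj
    have h1 := hpow i hi'.2
    have h2 := hpow j hj'.2
    rw [h, h2] at h1
    have h3 := zpow_right_injective₀ (by positivity) hp1.ne' h1
    have hi2 : i < e := Finset.mem_range.1 hi'.1
    have hj2 : j < e := Finset.mem_range.1 hj'.1
    have h4 : (e : ℤ) ∣ (i : ℤ) - j := ⟨(a j).valuation - (a i).valuation, by linarith⟩
    have h5 : (i : ℤ) - j = 0 := Int.eq_zero_of_abs_lt_dvd h4 (by rw [abs_lt]; omega)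
    omega)
  rw [hsup]
  refine ⟨fun j hj => ?_, fun _ => ?_⟩
  · by_cases h : a j = 0
    · rw [h, norm_zero, zero_mul, ← hsup]
      exact norm_nonneg _
    · rw [← hterm]
      exact Finset.le_sup' (fun i => ‖a i • π ^ i‖)
        (Finset.mem_filter.2 ⟨Finset.mem_range.2 hj, h⟩ : j ∈ s)
  · obtain ⟨i, hi, hi'⟩ := Finset.exists_mem_eq_sup' hne (fun i => ‖a i • π ^ i‖)
    rw [hi']
    exact ⟨_, hpow i (Finset.mem_filter.1 hi).2⟩

variable (p) in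
/-- The field generated by the roots of unity of order dividing `p ^ n`. -/
noncomputable def cycF (n : ℕ) : IntermediateField ℚ_[p] (PadicAlgCl p) :=
  IntermediateField.adjoin ℚ_[p] {ζ | ζ ^ p ^ n = 1}

theorem mem_cycF {n : ℕ} {ζ : PadicAlgCl p} (h : ζ ^ p ^ n = 1) : ζ ∈ cycF p n :=
  IntermediateField.subset_adjoin _ _ h

theorem cycF_mono : Monotone (cycF p) := by
  intro m n hmn
  refine IntermediateField.adjoin.mono _ _ _ fun ζ hζ => ?_
  obtain ⟨k, rfl⟩ := Nat.exists_eq_add_of_le hmn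
  show ζ ^ p ^ (m + k) = 1
  have hζ' : ζ ^ p ^ m = 1 := hζ
  rw [pow_add, pow_mul, hζ', one_pow]

theorem gal_mem_cycF (σ : PadicAlgCl p ≃ₐ[ℚ_[p]] PadicAlgCl p) {n : ℕ} {z : PadicAlgCl p}
    (hz : z ∈ cycF p n) : σ z ∈ cycF p n := by
  have h1 : (cycF p n).map σ.toAlgHom ≤ cycF p n := by
    rw [cycF, IntermediateField.adjoin_map]
    refine IntermediateField.adjoin.mono _ _ _ ?_
    rintro _ ⟨ζ, hζ, rfl⟩
    have hζ' : ζ ^ p ^ n = 1 := hζ
    show (σ ζ) ^ p ^ n = 1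
    rw [← map_pow, hζ', map_one]
  exact h1 ⟨z, hz, rfl⟩

theorem exists_repr {k : ℕ} {ζ : PadicAlgCl p} (hζ : IsPrimitiveRoot ζ (p ^ (k + 1)))
    {z : PadicAlgCl p} (hz : z ∈ cycF p (k + 1)) :
    ∃ a : ℕ → ℚ_[p], z = ∑ i ∈ Finset.range (p ^ k * (p - 1)), a i • (ζ - 1) ^ i := by
  have hN : p ^ (k + 1) ≠ 0 := pow_ne_zero _ hp.out.ne_zero
  have : NeZero (p ^ (k + 1)) := ⟨hN⟩
  have h1 : cycF p (k + 1) ≤ IntermediateField.adjoin ℚ_[p] {ζ} := by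
    rw [cycF, IntermediateField.adjoin_le_iff]
    intro μ hμ
    obtain ⟨i, _, hi⟩ := hζ.eq_pow_of_pow_eq_one hμ
    rw [← hi]
    exact pow_mem (IntermediateField.mem_adjoin_simple_self _ ζ) i
  have h2 : z ∈ (IntermediateField.adjoin ℚ_[p] {ζ}).toSubalgebra := h1 hz
  rw [IntermediateField.adjoin_simple_toSubalgebra_of_isAlgebraic
    (Algebra.IsAlgebraic.isAlgebraic ζ), Algebra.adjoin_singleton_eq_range_aeval] at h2
  obtain ⟨Q, hQ⟩ := h2
  set Φ : ℚ_[p][X] := (cyclotomic (p ^ (k + 1)) ℚ_[p]).comp (X + C 1) with hΦ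
  have hΦm : Φ.Monic := (cyclotomic.monic _ _).comp_X_add_C 1
  have hΦd : Φ.natDegree = p ^ k * (p - 1) := by
    rw [hΦ, natDegree_comp, natDegree_cyclotomic, natDegree_X_add_C, mul_one,
      Nat.totient_prime_pow_succ hp.out]
  have hΦ0 : aeval (ζ - 1) Φ = 0 := by
    rw [hΦ, aeval_comp]
    simp only [map_add, aeval_X, map_one, sub_add_cancel]
    rw [← eval_map_algebraMap, map_cyclotomic]
    exact hζ.isRoot_cyclotomic (Nat.pos_of_ne_zero hN)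
  have hΦ1 : Φ ≠ 1 := by
    intro h
    rw [h, map_one] at hΦ0
    exact one_ne_zero hΦ0
  set P := (Q.comp (X + C 1)) %ₘ Φ with hP
  have hPd : P.natDegree < p ^ k * (p - 1) := hΦd ▸ natDegree_modByMonic_lt _ hΦm hΦ1
  refine ⟨P.coeff, ?_⟩
  rw [← aeval_eq_sum_range' hPd, hP, aeval_modByMonic_eq_self_of_root hΦ0, aeval_comp]
  simp only [map_add, aeval_X, map_one, sub_add_cancel]
  exact hQ.symm

theorem exists_prim (n : ℕ) : ∃ ζ : PadicAlgCl p, IsPrimitiveRoot ζ (p ^ n) := by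
  have : NeZero (p : ℚ_[p]) := ⟨by exact_mod_cast hp.out.ne_zero⟩
  exact HasEnoughRootsOfUnity.exists_primitiveRoot _ _

theorem not_mem_cycF {k : ℕ} {ζ : PadicAlgCl p} (hζ : IsPrimitiveRoot ζ (p ^ (k + 2))) :
    ζ ∉ cycF p (k + 1) := by
  intro h
  have hp1 : (1 : ℝ) < p := by exact_mod_cast hp.out.one_lt
  obtain ⟨ξ, hξ⟩ := exists_prim (p := p) (k + 1)
  obtain ⟨a, ha⟩ := exists_repr hξ (sub_mem h (one_mem _))
  have h1 := norm_sub_one_pow hξ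
  rw [norm_p_K] at h1
  have h2 := norm_sub_one_pow (k := k + 1) hζ
  rw [norm_p_K] at h2
  have hne : ζ - 1 ≠ 0 := sub_ne_zero.2 (hζ.ne_one (Nat.one_lt_pow (by omega) hp.out.one_lt))
  obtain ⟨s, hs⟩ := (orth (ξ - 1) _ h1 a).2 (ha ▸ hne)
  rw [← ha] at hs
  rw [show p ^ (k + 1) * (p - 1) = p ^ k * (p - 1) * p by ring, pow_mul, hs, ← zpow_natCast,
    ← zpow_mul, ← zpow_neg_one] at h2
  have h3 := zpow_right_injective₀ (by positivity) hp1.ne' h2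
  have h4 : (p : ℤ) ∣ 1 := ⟨-s, by linarith⟩
  exact hp.out.one_lt.ne' (by exact_mod_cast Int.eq_one_of_dvd_one (by positivity) h4)

theorem exists_move {k : ℕ} {ζ : PadicAlgCl p} (hζ : IsPrimitiveRoot ζ (p ^ (k + 2))) :
    ∃ τ : PadicAlgCl p ≃ₐ[ℚ_[p]] PadicAlgCl p, (∀ x ∈ cycF p (k + 1), τ x = x) ∧ τ ζ ≠ ζ := by
  by_contra h
  push Not at h
  obtain ⟨a, ha, ha'⟩ := ax_K (cycF p (k + 1)) ζ 0 (fun σ hσ => by
    rw [h σ hσ, sub_self, norm_zero])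
  rw [zero_mul, norm_le_zero_iff, sub_eq_zero] at ha'
  exact not_mem_cycF hζ (ha' ▸ ha)

variable (p) in
/-- The normalised trace to the `n`-th layer of the cyclotomic tower. -/
noncomputable def ntr (n : ℕ) (z : PadicAlgCl p) : PadicAlgCl p :=
  (Algebra.normalizedTrace (cycF p n) (PadicAlgCl p) z : cycF p n)

theorem ntr_add (n : ℕ) (y z : PadicAlgCl p) : ntr p n (y + z) = ntr p n y + ntr p n z := by
  simp [ntr]

theorem ntr_sub (n : ℕ) (y z : PadicAlgCl p) : ntr p n (y - z) = ntr p n y - ntr p n z := by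
  simp [ntr]

theorem ntr_mul (n : ℕ) {c : PadicAlgCl p} (hc : c ∈ cycF p n) (z : PadicAlgCl p) :
    ntr p n (c * z) = c * ntr p n z := by
  have : c * z = (⟨c, hc⟩ : cycF p n) • z := rfl
  rw [ntr, this, map_smul]
  rfl

theorem ntr_smul (n : ℕ) (c : ℚ_[p]) (z : PadicAlgCl p) : ntr p n (c • z) = c • ntr p n z := by
  rw [Algebra.smul_def, Algebra.smul_def, ntr_mul n (IntermediateField.algebraMap_mem _ c)]

theorem ntr_sum (n : ℕ) (s : Finset ℕ) (f : ℕ → PadicAlgCl p) :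
    ntr p n (∑ i ∈ s, f i) = ∑ i ∈ s, ntr p n (f i) := by
  simp [ntr]

theorem ntr_self (n : ℕ) {c : PadicAlgCl p} (hc : c ∈ cycF p n) : ntr p n c = c := by
  have := Algebra.normalizedTrace_algebraMap_apply_eq_self (cycF p n) (PadicAlgCl p) ⟨c, hc⟩
  exact congrArg Subtype.val this

theorem ntr_gal (n : ℕ) (τ : PadicAlgCl p ≃ₐ[ℚ_[p]] PadicAlgCl p) (hτ : ∀ x ∈ cycF p n, τ x = x)
    (z : PadicAlgCl p) : ntr p n (τ z) = ntr p n z := by
  let τ' : PadicAlgCl p →ₐ[cycF p n] PadicAlgCl p :=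
    { τ.toRingEquiv.toRingHom with commutes' := fun x => hτ x x.2 }
  have := Algebra.normalizedTrace_map (cycF p n) (PadicAlgCl p) τ' z
  exact congrArg Subtype.val this

theorem norm_ntr_root (n m : ℕ) {ζ : PadicAlgCl p} (hζ : ζ ^ p ^ m = 1) :
    ‖ntr p (n + 1) ζ‖ ≤ 1 := by
  obtain ⟨k, _, hk⟩ := (Nat.dvd_prime_pow hp.out).1 (orderOf_dvd_of_pow_eq_one hζ)
  have hprim : IsPrimitiveRoot ζ (p ^ k) := hk ▸ IsPrimitiveRoot.orderOf ζ
  by_cases hkn : k ≤ n + 1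
  · rw [ntr_self _ (cycF_mono hkn (mem_cycF hprim.pow_eq_one))]
    exact (norm_root (pow_ne_zero _ hp.out.ne_zero) hζ).le
  · obtain ⟨j, rfl⟩ : ∃ j, k = j + 2 := ⟨k - 2, by omega⟩
    obtain ⟨τ, hτ, hmove⟩ := exists_move hprim
    have hζ0 : ζ ≠ 0 := hprim.ne_zero (pow_ne_zero _ hp.out.ne_zero)
    have h1 : τ (ζ ^ p) = ζ ^ p := hτ _ (mem_cycF (by
      rw [← pow_mul, ← pow_succ']; exact hprim.pow_eq_one))
    have h2 : (τ ζ / ζ) ^ p ^ 1 = 1 := by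
      rw [pow_one, div_pow, ← map_pow, h1, div_self (pow_ne_zero _ hζ0)]
    have h3 : τ ζ / ζ ∈ cycF p (n + 1) := cycF_mono (by omega) (mem_cycF h2)
    have h4 := ntr_gal (n + 1) τ (fun x hx => hτ x (cycF_mono (by omega) hx)) ζ
    have h5 := ntr_mul (n + 1) h3 ζ
    rw [div_mul_cancel₀ _ hζ0, h4] at h5
    have h6 : (τ ζ / ζ - 1) * ntr p (n + 1) ζ = 0 := by linear_combination -h5
    rcases mul_eq_zero.1 h6 with h | h
    · rw [sub_eq_zero, div_eq_one_iff_eq hζ0] at h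
      exact absurd h hmove
    · rw [h, norm_zero]; exact zero_le_one

theorem norm_ntr_le (n m : ℕ) {z : PadicAlgCl p} (hz : z ∈ cycF p m) :
    ‖ntr p (n + 1) z‖ ≤ p * ‖z‖ := by
  have hp1 : (1 : ℝ) < p := by exact_mod_cast hp.out.one_lt
  obtain ⟨ζ, hζ⟩ := exists_prim (p := p) (m + 1)
  obtain ⟨a, ha⟩ := exists_repr hζ (cycF_mono (Nat.le_succ m) hz)
  have h1 := norm_sub_one_pow hζ
  rw [norm_p_K] at h1
  have h2 := (orth (ζ - 1) _ h1 a).1
  rw [← ha] at h2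
  have h3 : ∀ i j : ℕ, ‖ntr p (n + 1) (ζ ^ j * (ζ - 1) ^ i)‖ ≤ 1 := by
    intro i
    induction i with
    | zero =>
      intro j
      rw [pow_zero, mul_one]
      exact norm_ntr_root n (m + 1) (by rw [← pow_mul, mul_comm, pow_mul, hζ.pow_eq_one, one_pow])
    | succ i ih =>
      intro j
      have e : ζ ^ j * (ζ - 1) ^ (i + 1) = ζ ^ (j + 1) * (ζ - 1) ^ i - ζ ^ j * (ζ - 1) ^ i := by
        ring
      rw [e, ntr_sub, sub_eq_add_neg]
      refine (IsUltrametricDist.norm_add_le_max _ _).trans (max_le (ih _) ?_)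
      rw [norm_neg]; exact ih _
  have hπ : ‖ζ - 1‖ ≤ 1 := by
    rw [sub_eq_add_neg]
    refine (IsUltrametricDist.norm_add_le_max _ _).trans (max_le ?_ (by simp))
    exact (norm_root (pow_ne_zero _ hp.out.ne_zero) hζ.pow_eq_one).le
  conv_lhs => rw [ha]
  rw [ntr_sum]
  refine IsUltrametricDist.norm_sum_le_of_forall_le_of_nonneg (by positivity) fun i hi => ?_
  have hi' := Finset.mem_range.1 hi
  rw [ntr_smul, norm_smul]
  have h4 := h3 i 0
  rw [pow_zero, one_mul] at h4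
  have h5 : (p : ℝ)⁻¹ ≤ ‖ζ - 1‖ ^ i := by
    rw [← h1]
    exact pow_le_pow_of_le_one (norm_nonneg _) hπ hi'.le
  have h6 : ‖a i‖ * (p : ℝ)⁻¹ ≤ ‖z‖ :=
    (mul_le_mul_of_nonneg_left h5 (norm_nonneg _)).trans (h2 i hi')
  rw [mul_inv_le_iff₀ (by positivity), mul_comm] at h6
  exact (mul_le_of_le_one_right (norm_nonneg _) h4).trans h6

end Pool.Agent.H478Z.FM
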