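import Mathlib
import Pool.Agent.H478Z.FM.Tower

set_option autoImplicit false

namespace Pool.Agent.H478Z.FM

section chi
variable {L : Type*} [Field L] {p : ℕ} [hp : Fact p.Prime]
  [∀ i, HasEnoughRootsOfUnity L (p ^ i)]

theorem chi_eq_of_pow (g : L ≃+* L) {n : ℕ} {ζ : L} (hζ : IsPrimitiveRoot ζ (p ^ n)) {a : ℕ}
    (h : g ζ = ζ ^ a) : (cyclotomicCharacter L p g).val.toZModPow n = a := by
  have h1 := cyclotomicCharacter.spec p g ζ hζ.pow_eq_one
  have hfin : IsOfFinOrder ζ := hζ.isOfFinOrder (pow_ne_zero _ hp.out.ne_zero)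
  rw [h, hfin.pow_eq_pow_iff_modEq, ← hζ.eq_orderOf] at h1
  have h2 := (ZMod.natCast_eq_natCast_iff _ _ _).2 h1
  rw [ZMod.natCast_zmod_val] at h2
  exact h2.symm

end chi

variable {p : ℕ} [hp : Fact p.Prime]

instance enoughK (i : ℕ) : HasEnoughRootsOfUnity (PadicAlgCl p) (p ^ i) :=
  ⟨exists_prim i, rootsOfUnity.isCyclic _ _⟩

/-- The local cyclotomic character. -/
noncomputable def chiK (g : PadicAlgCl p ≃ₐ[ℚ_[p]] PadicAlgCl p) : ℤ_[p] :=
  (cyclotomicCharacter (PadicAlgCl p) p g.toRingEquiv).val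

theorem chiK_spec (g : PadicAlgCl p ≃ₐ[ℚ_[p]] PadicAlgCl p) {n : ℕ} {ζ : PadicAlgCl p}
    (h : ζ ^ p ^ n = 1) : g ζ = ζ ^ ((chiK g).toZModPow n).val :=
  cyclotomicCharacter.spec p g.toRingEquiv ζ h

theorem chiK_mod (g : PadicAlgCl p ≃ₐ[ℚ_[p]] PadicAlgCl p) {n : ℕ}
    (h : ∀ x ∈ cycF p n, g x = x) : (chiK g).toZModPow n = 1 := by
  obtain ⟨ζ, hζ⟩ := exists_prim (p := p) n
  have := chi_eq_of_pow g.toRingEquiv hζ (a := 1) (by
    rw [pow_one]; exact h ζ (mem_cycF hζ.pow_eq_one))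
  rw [Nat.cast_one] at this
  exact this

theorem chiK_eq_one (g : PadicAlgCl p ≃ₐ[ℚ_[p]] PadicAlgCl p)
    (h : ∀ n, ∀ x ∈ cycF p n, g x = x) : chiK g = 1 := by
  refine PadicInt.ext_of_toZModPow.mp fun n => ?_
  rw [chiK_mod g (h n), map_one]

theorem exists_chiK_pow_ne (n j : ℕ) (hj : j ≠ 0) (hjn : j ≤ n) :
    ∃ γ : PadicAlgCl p ≃ₐ[ℚ_[p]] PadicAlgCl p, (∀ x ∈ cycF p (n + 1), γ x = x) ∧
      chiK γ ^ j ≠ 1 := by
  obtain ⟨ζ, hζ⟩ := exists_prim (p := p) (n + 2)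
  obtain ⟨γ, hγ, hmove⟩ := exists_move hζ
  refine ⟨γ, hγ, fun h => ?_⟩
  have h1 : chiK γ ≠ 1 := by
    intro h1
    apply hmove
    rw [chiK_spec γ hζ.pow_eq_one, h1, map_one, ZMod.val_one'', pow_one]
    exact (Nat.one_lt_pow (by omega) hp.out.one_lt).ne'
  have h2 : ∑ i ∈ Finset.range j, chiK γ ^ i = 0 := by
    have := geom_sum_mul (chiK γ) j
    rw [h, sub_self] at this
    exact (mul_eq_zero.1 this).resolve_right (sub_ne_zero.2 h1)
  have h3 := congrArg (PadicInt.toZModPow (n + 1)) h2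
  rw [map_sum, map_zero] at h3
  simp only [map_pow, chiK_mod γ hγ, one_pow, Finset.sum_const, Finset.card_range, nsmul_eq_mul,
    mul_one] at h3
  rw [ZMod.natCast_eq_zero_iff] at h3
  have h4 := Nat.le_of_dvd (Nat.pos_of_ne_zero hj) h3
  have h5 : n + 1 < p ^ (n + 1) := Nat.lt_pow_self hp.out.one_lt
  omega

theorem norm_chiK (g : PadicAlgCl p ≃ₐ[ℚ_[p]] PadicAlgCl p) : ‖chiK g‖ = 1 :=
  PadicInt.isUnit_iff.1 (cyclotomicCharacter (PadicAlgCl p) p g.toRingEquiv).isUnit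

/-- Tate: `ℂ_p (j)` has no nonzero Galois invariants for `j ≠ 0`. -/
theorem tate (act : (PadicAlgCl p ≃ₐ[ℚ_[p]] PadicAlgCl p) → ℂ_[p] → ℂ_[p])
    (h1 : ∀ g (x : PadicAlgCl p), act g x = (g x : PadicAlgCl p))
    (h2 : ∀ g x y, ‖act g x - act g y‖ = ‖x - y‖) (y : ℂ_[p]) (hy : y ≠ 0) (j : ℕ) (hj : j ≠ 0)
    (h : ∀ g, act g y = algebraMap ℚ_[p] ℂ_[p] ((chiK g ^ j : ℤ_[p]) : ℚ_[p]) * y) : False := by
  have hp1 : (1 : ℝ) < p := by exact_mod_cast hp.out.one_lt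
  have hcoe : ∀ a b : PadicAlgCl p, ‖(a : ℂ_[p]) - b‖ = ‖a - b‖ := by
    intro a b
    rw [← UniformSpace.Completion.coe_sub, PadicComplex.norm_extends]
  -- approximation from the cyclotomic tower
  have happ : ∀ ε : ℝ, 0 < ε → ∃ m, ∃ a ∈ cycF p m, ‖y - a‖ ≤ ε := by
    intro ε hε
    have hc : (1 : ℝ) ≤ (p : ℝ) ^ (p : ℝ) := Real.one_le_rpow hp1.le (by positivity)
    set η := ε / (p : ℝ) ^ (p : ℝ) with hη
    have hη0 : 0 < η := by positivity
    obtain ⟨α, hα⟩ := Metric.denseRange_iff.1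
      (UniformSpace.Completion.denseRange_coe (α := PadicAlgCl p)) y η hη0
    rw [dist_eq_norm] at hα
    have hdir : Directed (· ≤ ·) (cycF p) := cycF_mono.directed_le
    obtain ⟨a, ha, ha'⟩ := ax_K (⨆ m, cycF p m) α η (by
      intro σ hσ
      have h3 : chiK σ = 1 := chiK_eq_one σ fun n x hx => hσ x (le_iSup (cycF p) n hx)
      have h4 := h σ
      rw [h3, one_pow, PadicInt.coe_one, map_one, one_mul] at h4
      rw [← hcoe, ← h1]
      have e : act σ α - α = (act σ α - act σ y) + (y - α) := by rw [h4]; ring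
      rw [e]
      refine (IsUltrametricDist.norm_add_le_max _ _).trans (max_le ?_ hα.le)
      rw [h2, norm_sub_rev]; exact hα.le)
    have ha2 : a ∈ ((⨆ m, cycF p m : IntermediateField ℚ_[p] (PadicAlgCl p)) :
      Set (PadicAlgCl p)) := ha
    rw [IntermediateField.coe_iSup_of_directed hdir] at ha2
    obtain ⟨m, hm⟩ := Set.mem_iUnion.1 ha2
    refine ⟨m, a, hm, ?_⟩
    have e : y - a = (y - α) + ((α : ℂ_[p]) - a) := by ring
    rw [e]
    have hηε : η * (p : ℝ) ^ (p : ℝ) = ε := by rw [hη]; field_simp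
    refine (IsUltrametricDist.norm_add_le_max _ _).trans (max_le ?_ ?_)
    · nlinarith
    · rw [hcoe, ← hηε]; exact ha'
  have hy0 : 0 < ‖y‖ := norm_pos_iff.2 hy
  obtain ⟨n0, a0, ha0, ha0'⟩ := happ (‖y‖ / p ^ 2) (by positivity)
  set n := max n0 j with hn
  have ha0n : a0 ∈ cycF p (n + 1) := cycF_mono (by omega) ha0
  obtain ⟨γ, hγ, hne⟩ := exists_chiK_pow_ne (p := p) n j hj (le_max_right _ _)
  set u : ℚ_[p] := ((chiK γ ^ j : ℤ_[p]) : ℚ_[p]) with hu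
  have hu1 : ‖u‖ = 1 := by
    rw [hu, PadicInt.padic_norm_e_of_padicInt, norm_pow, norm_chiK, one_pow]
  have hu2 : 0 < ‖1 - u‖ := by
    rw [norm_pos_iff, sub_ne_zero]
    intro h0
    apply hne
    apply Subtype.ext
    exact h0.symm
  have hlt : ‖y‖ / p < ‖y‖ := div_lt_self hy0 hp1
  have hlt2 : ‖y‖ / p ^ 2 < ‖y‖ := div_lt_self hy0 (by nlinarith)
  have ha0y : ‖a0‖ = ‖y‖ := by
    rw [← PadicComplex.norm_extends]
    have e : (a0 : ℂ_[p]) = y + -(y - a0) := by ring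
    rw [e, IsUltrametricDist.norm_add_eq_max_of_norm_ne_norm (by rw [norm_neg]; linarith),
      norm_neg, max_eq_left (by linarith)]
  set ε := min (‖y‖ / p ^ 2) (‖1 - u‖ * ‖y‖ / (2 * p)) with hε
  obtain ⟨m, a, ha, ha'⟩ := happ ε (lt_min (by positivity) (by positivity))
  have hm1 : a ∈ cycF p (max m (n + 1)) := cycF_mono (le_max_left _ _) ha
  have hm2 : a0 ∈ cycF p (max m (n + 1)) := cycF_mono (le_max_right _ _) ha0n
  -- the trace of `a` has the size of `y`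
  have hA : ‖ntr p (n + 1) a‖ = ‖y‖ := by
    have e : a = a0 + (a - a0) := by ring
    have h3 : ‖a - a0‖ ≤ ‖y‖ / p ^ 2 := by
      rw [← hcoe]
      have e : (a : ℂ_[p]) - a0 = -(y - a) + (y - a0) := by ring
      rw [e]
      refine (IsUltrametricDist.norm_add_le_max _ _).trans (max_le ?_ ha0')
      rw [norm_neg]; exact ha'.trans (min_le_left _ _)
    have h4 : ‖ntr p (n + 1) (a - a0)‖ ≤ ‖y‖ / p := by
      refine (norm_ntr_le n _ (sub_mem hm1 hm2)).trans ?_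
      calc (p : ℝ) * ‖a - a0‖ ≤ p * (‖y‖ / p ^ 2) := mul_le_mul_of_nonneg_left h3 (by positivity)
        _ = ‖y‖ / p := by field_simp
    rw [e, ntr_add, ntr_self _ ha0n,
      IsUltrametricDist.norm_add_eq_max_of_norm_ne_norm (by linarith), ha0y,
      max_eq_left (by linarith)]
  have hB : ‖γ a - u • a‖ ≤ ε := by
    rw [← hcoe, ← h1]
    have e1 : ((u • a : PadicAlgCl p) : ℂ_[p]) = algebraMap ℚ_[p] ℂ_[p] u * a := by
      rw [UniformSpace.Completion.coe_smul, Algebra.smul_def]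
    have e : act γ a - ((u • a : PadicAlgCl p) : ℂ_[p])
        = (act γ a - act γ y) + algebraMap ℚ_[p] ℂ_[p] u * (y - a) := by
      rw [e1, h γ]; ring
    rw [e]
    refine (IsUltrametricDist.norm_add_le_max _ _).trans (max_le ?_ ?_)
    · rw [h2, norm_sub_rev]; exact ha'
    · rw [norm_mul, norm_algebraMap', hu1, one_mul]; exact ha'
  have hC := norm_ntr_le n _ (sub_mem (gal_mem_cycF γ ha) (IntermediateField.smul_mem _ ha (x := u)))
  rw [ntr_sub, ntr_gal _ γ hγ, ntr_smul] at hC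
  have e : ntr p (n + 1) a - u • ntr p (n + 1) a = (1 - u) • ntr p (n + 1) a := by
    rw [sub_smul, one_smul]
  rw [e, norm_smul, hA] at hC
  have hD : (p : ℝ) * ‖γ a - u • a‖ ≤ p * (‖1 - u‖ * ‖y‖ / (2 * p)) :=
    mul_le_mul_of_nonneg_left (hB.trans (min_le_right _ _)) (by positivity)
  have e2 : (p : ℝ) * (‖1 - u‖ * ‖y‖ / (2 * p)) = ‖1 - u‖ * ‖y‖ / 2 := by field_simp
  have : 0 < ‖1 - u‖ * ‖y‖ := by positivity
  linarith

end Pool.Agent.H478Z.FM
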