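import Mathlib
import Pool.Agent.H478Z.FM.Tate
import Pool.Agent.H478Z.FM.Defs

set_option autoImplicit false

open Ideal WittVector

noncomputable section

namespace Pool.Agent.H478Z.FM

variable {p : ℕ} [hp : Fact p.Prime]

/-- Reduction of compatible systems of `p`-power roots. -/
def flat : Perfection 𝓞_ℂ_[p] p ≃* PreTilt 𝓞_ℂ_[p] p :=
  Perfection.quotientMulEquiv p (span {(p : 𝓞_ℂ_[p])})

theorem untilt_flat (x : Perfection 𝓞_ℂ_[p] p) : (flat x).untilt = x.1 0 :=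
  Perfection.teichmuller₀_mapMonoidHom_idealQuotientMk

theorem coeff_flat (x : Perfection 𝓞_ℂ_[p] p) (n : ℕ) :
    PreTilt.coeff n (flat x) = Ideal.Quotient.mk _ (x.1 n) := rfl

theorem perf_pow (x : Perfection 𝓞_ℂ_[p] p) (n : ℕ) : x.1 n ^ p ^ n = x.1 0 :=
  Perfection.coeffMonoidHom_pow_p_pow_self x n

theorem tilt_dvd (x y : PreTilt 𝓞_ℂ_[p] p) (hy : y.untilt ≠ 0)
    (h : ‖(x.untilt : ℂ_[p])‖ ≤ ‖(y.untilt : ℂ_[p])‖) : y ∣ x := by
  obtain ⟨x, rfl⟩ := flat.surjective x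
  obtain ⟨y, rfl⟩ := flat.surjective y
  rw [untilt_flat] at hy
  rw [untilt_flat, untilt_flat] at h
  have h1 : ∀ n, y.1 n ∣ x.1 n := by
    intro n
    rw [dvd_iff_norm_le]
    rw [← perf_pow x n, ← perf_pow y n, SubmonoidClass.coe_pow, SubmonoidClass.coe_pow, norm_pow,
      norm_pow] at h
    exact (pow_le_pow_iff_left₀ (norm_nonneg _) (norm_nonneg _)
      (pow_ne_zero _ hp.out.ne_zero)).1 h
  choose z hz using h1
  have h2 : ∀ n, y.1 n ≠ 0 := by
    intro n h0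
    apply hy
    rw [← perf_pow y n, h0, zero_pow (pow_ne_zero _ hp.out.ne_zero)]
  refine map_dvd flat (⟨⟨z, fun n => ?_⟩, Subtype.ext (funext hz)⟩ : y ∣ x)
  apply mul_left_cancel₀ (h2 n)
  rw [← hz n, ← x.2 n, hz (n + 1), mul_pow, y.2 n]

theorem exists_eta : ∃ η : ℕ → PadicAlgCl p, (∀ n, η (n + 1) ^ p = η n) ∧
    ∀ n, IsPrimitiveRoot (η n) (p ^ (n + 1)) := by
  obtain ⟨ζ, hζ⟩ := exists_prim (p := p) 1
  have h := fun x : PadicAlgCl p => IsAlgClosed.exists_pow_nat_eq x hp.out.pos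
  choose r hr using h
  refine ⟨fun n => r^[n] ζ, fun n => ?_, fun n => ?_⟩
  · show (r^[n + 1] ζ) ^ p = r^[n] ζ
    rw [Function.iterate_succ_apply', hr]
  have h1 : ∀ n, (r^[n] ζ) ^ p ^ n = ζ := by
    intro n
    induction n with
    | zero => simp
    | succ n ih => rw [Function.iterate_succ_apply', pow_succ', pow_mul, hr, ih]
  have h2 : orderOf (r^[n] ζ) = p ^ (n + 1) := by
    apply orderOf_eq_prime_pow
    · rw [h1]
      exact hζ.ne_one (by simpa using hp.out.one_lt)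
    · rw [pow_succ, pow_mul, h1]
      simpa using hζ.pow_eq_one
  exact h2 ▸ IsPrimitiveRoot.orderOf _

variable (p) in
/-- A compatible system of primitive roots of unity of order `p ^ (n + 1)`. -/
def eta : ℕ → PadicAlgCl p := (exists_eta (p := p)).choose

theorem eta_pow (n : ℕ) : eta p (n + 1) ^ p = eta p n := (exists_eta (p := p)).choose_spec.1 n

theorem eta_prim (n : ℕ) : IsPrimitiveRoot (eta p n) (p ^ (n + 1)) :=
  (exists_eta (p := p)).choose_spec.2 n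

variable (p) in
/-- The same system in the ring of integers of `ℂ_p`. -/
def etaO (n : ℕ) : 𝓞_ℂ_[p] := ⟨(eta p n : ℂ_[p]), (mem_int_iff p _).2 (by
  rw [PadicComplex.norm_extends]
  exact (norm_root (pow_ne_zero _ hp.out.ne_zero) (eta_prim n).pow_eq_one).le)⟩

theorem coe_etaO (n : ℕ) : (etaO p n : ℂ_[p]) = algebraMap (PadicAlgCl p) ℂ_[p] (eta p n) := rfl

variable (p) in
/-- The element `ε ^ (1 / p)`. -/
def eps1 : Perfection 𝓞_ℂ_[p] p := ⟨etaO p, fun n => Subtype.ext (by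
  rw [SubmonoidClass.coe_pow, coe_etaO, coe_etaO, ← map_pow, eta_pow])⟩

variable (p) in
/-- The Teichmüller lift of `ε ^ (1 / p)`. -/
def te1 : WittVector p (PreTilt 𝓞_ℂ_[p] p) := teichmuller p (flat (eps1 p))

variable (p) in
/-- The generator of the kernel of `θ`. -/
def xi : WittVector p (PreTilt 𝓞_ℂ_[p] p) := ∑ i ∈ Finset.range p, te1 p ^ i

theorem theta_te1 : fontaineTheta 𝓞_ℂ_[p] p (te1 p) = etaO p 0 := by
  rw [te1, fontaineTheta_teichmuller, untilt_flat]; rfl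

theorem theta_xi : fontaineTheta 𝓞_ℂ_[p] p (xi p) = 0 := by
  rw [xi, map_sum]
  simp only [map_pow, theta_te1]
  apply Subtype.ext
  have h := (eta_prim (p := p) 0)
  rw [zero_add, pow_one] at h
  have h2 := congrArg (algebraMap (PadicAlgCl p) ℂ_[p]) (h.geom_sum_eq_zero hp.out.one_lt)
  rw [map_sum, map_zero] at h2
  simp only [map_pow] at h2
  rw [AddSubmonoidClass.coe_finsetSum]
  exact h2

instance tiltDomain : IsDomain (PreTilt 𝓞_ℂ_[p] p) :=
  PreTilt.isDomain ℂ_[p] (PadicComplex.valued p).v 𝓞_ℂ_[p] (PadicComplexInt.integers p) p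

theorem norm_untilt_eps : ‖((flat (eps1 p) - 1).untilt : ℂ_[p])‖ ^ (p - 1) = (p : ℝ)⁻¹ := by
  have hp1 : (1 : ℝ) < p := by exact_mod_cast hp.out.one_lt
  have h1 : (flat (eps1 p) - 1).untilt ≡ (etaO p 1 - 1) ^ p ^ 1
      [SMOD (span {(p : 𝓞_ℂ_[p])}) ^ (1 + 1)] :=
    Perfection.teichmuller_sModEq (by
      change _ = PreTilt.coeff 1 (flat (eps1 p) - 1)
      rw [map_sub, map_sub, map_one, map_one, coeff_flat]; rfl)
  rw [SModEq.sub_mem, mem_pow_iff] at h1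
  have h2 := norm_sub_one_pow (k := 1) (eta_prim (p := p) 1)
  rw [norm_p_K, pow_mul] at h2
  have h3 : ‖(((etaO p 1 - 1) ^ p ^ 1 : 𝓞_ℂ_[p]) : ℂ_[p])‖ = ‖eta p 1 - 1‖ ^ p ^ 1 := by
    rw [SubmonoidClass.coe_pow, norm_pow, AddSubgroupClass.coe_sub, coe_etaO, OneMemClass.coe_one,
      ← map_one (algebraMap (PadicAlgCl p) ℂ_[p]), ← map_sub, ← PadicComplex.coe_eq,
      PadicComplex.norm_extends]
  set w := ‖eta p 1 - 1‖ ^ p ^ 1 with hw
  have hw0 : 0 ≤ w := by positivity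
  have hp2 : p - 1 ≠ 0 := by have := hp.out.two_le; omega
  have hi1 : (p : ℝ)⁻¹ < 1 := inv_lt_one_of_one_lt₀ hp1
  have hi0 : (0 : ℝ) < (p : ℝ)⁻¹ := by positivity
  have hw1 : w ≤ 1 := by
    by_contra h
    have := one_lt_pow₀ (not_le.1 h) hp2
    linarith
  have hw2 : (p : ℝ)⁻¹ ≤ w := by
    rw [← h2]
    exact pow_le_of_le_one hw0 hw1 hp2
  have hw3 : (p : ℝ)⁻¹ ^ (1 + 1) < w := by nlinarith
  rw [← h2, ← h3]
  congr 1
  rw [AddSubgroupClass.coe_sub] at h1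
  have e : ((flat (eps1 p) - 1).untilt : ℂ_[p]) = (((etaO p 1 - 1) ^ p ^ 1 : 𝓞_ℂ_[p]) : ℂ_[p]) +
      (((flat (eps1 p) - 1).untilt : ℂ_[p]) - (((etaO p 1 - 1) ^ p ^ 1 : 𝓞_ℂ_[p]) : ℂ_[p])) := by
    ring
  rw [e, IsUltrametricDist.norm_add_eq_max_of_norm_ne_norm (by rw [h3]; linarith),
    max_eq_left (by rw [h3]; linarith)]

theorem eps_ne : flat (eps1 p) - 1 ≠ 0 := by
  intro h
  have h1 := norm_untilt_eps (p := p)
  have hp2 : p - 1 ≠ 0 := by have := hp.out.two_le; omega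
  have h0 : (0 : PreTilt 𝓞_ℂ_[p] p).untilt = 0 := Perfection.teichmuller_zero
  rw [h, h0, ZeroMemClass.coe_zero, norm_zero, zero_pow hp2] at h1
  have : (0 : ℝ) < (p : ℝ)⁻¹ := inv_pos.2 (by exact_mod_cast hp.out.pos)
  linarith

theorem constantCoeff_xi : constantCoeff (xi p) = (flat (eps1 p) - 1) ^ (p - 1) := by
  have h1 : constantCoeff (xi p) = ∑ i ∈ Finset.range p, flat (eps1 p) ^ i := by
    rw [xi, map_sum]
    simp only [map_pow]
    rfl
  rw [h1]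
  apply mul_right_cancel₀ (eps_ne (p := p))
  rw [geom_sum_mul, ← pow_succ, Nat.sub_add_cancel hp.out.one_le, sub_pow_char, one_pow]

theorem xi_ne : xi p ≠ 0 := by
  intro h
  have h1 := constantCoeff_xi (p := p)
  rw [h, map_zero] at h1
  exact pow_ne_zero _ eps_ne h1.symm

theorem ker_step (x : WittVector p (PreTilt 𝓞_ℂ_[p] p)) (hx : fontaineTheta 𝓞_ℂ_[p] p x = 0) :
    ∃ y x' : WittVector p (PreTilt 𝓞_ℂ_[p] p), fontaineTheta 𝓞_ℂ_[p] p x' = 0 ∧
      x = xi p * y + (p : WittVector p (PreTilt 𝓞_ℂ_[p] p)) * x' := by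
  have h1 := mk_fontaineTheta x
  rw [hx, map_zero, ← PreTilt.mk_untilt_eq_coeff_zero, eq_comm, Ideal.Quotient.eq_zero_iff_mem,
    ← pow_one (span {(p : 𝓞_ℂ_[p])}), mem_pow_iff, pow_one] at h1
  have h2 : ‖((constantCoeff (xi p)).untilt : ℂ_[p])‖ = (p : ℝ)⁻¹ := by
    rw [constantCoeff_xi, map_pow, SubmonoidClass.coe_pow, norm_pow, norm_untilt_eps]
  have h3 : (constantCoeff (xi p)).untilt ≠ 0 := by
    intro h
    rw [h, ZeroMemClass.coe_zero, norm_zero] at h2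
    have : (0 : ℝ) < (p : ℝ)⁻¹ := inv_pos.2 (by exact_mod_cast hp.out.pos)
    linarith
  obtain ⟨y, hy⟩ := tilt_dvd (x.coeff 0) (constantCoeff (xi p)) h3 (by rw [h2]; exact h1)
  have h4 : x - xi p * teichmuller p y ∈ RingHom.ker (constantCoeff (p := p)) := by
    rw [RingHom.mem_ker, map_sub, map_mul, constantCoeff_apply x, hy,
      constantCoeff_apply (teichmuller p y), teichmuller_coeff_zero, sub_self]
  rw [ker_constantCoeff, mem_span_singleton] at h4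
  obtain ⟨x', hx'⟩ := h4
  refine ⟨teichmuller p y, x', ?_, by rw [← hx']; ring⟩
  have h5 := congrArg (fontaineTheta 𝓞_ℂ_[p] p) hx'
  rw [map_sub, map_mul, map_mul, hx, theta_xi, zero_mul, sub_zero, map_natCast] at h5
  exact (mul_eq_zero.1 h5.symm).resolve_left (by exact_mod_cast hp.out.ne_zero)

theorem xi_dvd (x : WittVector p (PreTilt 𝓞_ℂ_[p] p)) (hx : fontaineTheta 𝓞_ℂ_[p] p x = 0) :
    xi p ∣ x := by
  have h := fun x : {x : WittVector p (PreTilt 𝓞_ℂ_[p] p) // fontaineTheta 𝓞_ℂ_[p] p x = 0} =>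
    ker_step x.1 x.2
  choose y nx h1 h2 using h
  let nxt : {x : WittVector p (PreTilt 𝓞_ℂ_[p] p) // fontaineTheta 𝓞_ℂ_[p] p x = 0} →
      {x : WittVector p (PreTilt 𝓞_ℂ_[p] p) // fontaineTheta 𝓞_ℂ_[p] p x = 0} := fun x => ⟨nx x, h1 x⟩
  let s : ℕ → {x : WittVector p (PreTilt 𝓞_ℂ_[p] p) // fontaineTheta 𝓞_ℂ_[p] p x = 0} :=
    fun n => nxt^[n] ⟨x, hx⟩
  let Y : ℕ → WittVector p (PreTilt 𝓞_ℂ_[p] p) :=
    fun n => ∑ i ∈ Finset.range n, (p : WittVector p (PreTilt 𝓞_ℂ_[p] p)) ^ i * y (s i)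
  have h3 : ∀ n, x = xi p * Y n + (p : WittVector p (PreTilt 𝓞_ℂ_[p] p)) ^ n * (s n).1 := by
    intro n
    induction n with
    | zero => simp [Y, s]
    | succ n ih =>
      have e1 : (s (n + 1)).1 = nx (s n) := by
        simp only [s, Function.iterate_succ_apply']
        rfl
      have e2 : Y (n + 1) = Y n + (p : WittVector p (PreTilt 𝓞_ℂ_[p] p)) ^ n * y (s n) :=
        Finset.sum_range_succ _ n
      rw [e1, e2]
      conv_lhs => rw [ih, h2 (s n)]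
      ring
  obtain ⟨L, hL⟩ := IsPrecomplete.prec
    (inferInstance : IsPrecomplete (span {(p : WittVector p (PreTilt 𝓞_ℂ_[p] p))}) _) (f := Y) (by
      intro m n hmn
      rw [smul_eq_mul, mul_top, span_singleton_pow]
      refine SModEq.symm ?_
      rw [SModEq.sub_mem, mem_span_singleton]
      simp only [Y]
      rw [Finset.sum_range_sub_sum_range hmn]
      refine Finset.dvd_sum fun i hi => Dvd.dvd.mul_right (pow_dvd_pow _ ?_) _
      exact (Finset.mem_filter.1 hi).2)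
  refine ⟨L, ?_⟩
  rw [IsHausdorff.eq_iff_smodEq (I := span {(p : WittVector p (PreTilt 𝓞_ℂ_[p] p))})]
  intro n
  have h4 := hL n
  rw [smul_eq_mul, mul_top, span_singleton_pow, SModEq.sub_mem, mem_span_singleton] at h4 ⊢
  have e : x - xi p * L = xi p * (Y n - L) +
      (p : WittVector p (PreTilt 𝓞_ℂ_[p] p)) ^ n * (s n).1 := by
    conv_lhs => rw [h3 n]
    ring
  rw [e]
  exact dvd_add (Dvd.dvd.mul_left h4 _) (dvd_mul_right _ _)

end Pool.Agent.H478Z.FM
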