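import Mathlib
import Pool.Agent.H478Z.FM.Theta

set_option autoImplicit false

open Ideal WittVector

noncomputable section

namespace Pool.Agent.H478Z.FM

variable {p : ℕ} [hp : Fact p.Prime]

/-- Teichmüller lift of a compatible system. -/
def tau : Perfection 𝓞_ℂ_[p] p →* WittVector p (PreTilt 𝓞_ℂ_[p] p) :=
  (teichmuller p).comp (flat (p := p)).toMonoidHom

theorem tau_apply (x : Perfection 𝓞_ℂ_[p] p) : tau x = teichmuller p (flat x) := rfl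

theorem theta_tau (x : Perfection 𝓞_ℂ_[p] p) : fontaineTheta 𝓞_ℂ_[p] p (tau x) = x.1 0 := by
  rw [tau_apply, fontaineTheta_teichmuller, untilt_flat]

/-- The class of `[x] - 1` in `ker θ / (ker θ) ^ 2`. -/
def Drel (x : Perfection 𝓞_ℂ_[p] p) (d : 𝓞_ℂ_[p]) : Prop :=
  ∃ r, tau x - 1 = xi p * r ∧ fontaineTheta 𝓞_ℂ_[p] p r = d

theorem Drel_exists (x : Perfection 𝓞_ℂ_[p] p) (hx : x.1 0 = 1) : ∃ d, Drel x d := by
  obtain ⟨r, hr⟩ := xi_dvd (tau x - 1) (by rw [map_sub, theta_tau, hx, map_one, sub_self])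
  exact ⟨_, r, hr, rfl⟩

theorem Drel_unique {x : Perfection 𝓞_ℂ_[p] p} {d e : 𝓞_ℂ_[p]} (h1 : Drel x d) (h2 : Drel x e) :
    d = e := by
  obtain ⟨r, hr, rfl⟩ := h1
  obtain ⟨s, hs, rfl⟩ := h2
  rw [mul_left_cancel₀ xi_ne (hr.symm.trans hs)]

theorem Drel_mul {x y : Perfection 𝓞_ℂ_[p] p} {d e : 𝓞_ℂ_[p]} (h1 : Drel x d) (h2 : Drel y e) :
    Drel (x * y) (d + e) := by
  obtain ⟨r, hr, rfl⟩ := h1
  obtain ⟨s, hs, rfl⟩ := h2
  refine ⟨r * xi p * s + r + s, ?_, ?_⟩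
  · rw [map_mul]
    have e1 : tau x = 1 + xi p * r := by rw [← hr]; ring
    have e2 : tau y = 1 + xi p * s := by rw [← hs]; ring
    rw [e1, e2]; ring
  · rw [map_add, map_add, map_mul, map_mul, theta_xi]; ring

theorem Drel_pow {x : Perfection 𝓞_ℂ_[p] p} {d : 𝓞_ℂ_[p]} (h : Drel x d) (n : ℕ) :
    Drel (x ^ n) (n * d) := by
  induction n with
  | zero => exact ⟨0, by simp, by simp⟩
  | succ n ih =>
    have := Drel_mul ih h
    rw [← pow_succ] at this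
    have e : ((n + 1 : ℕ) : 𝓞_ℂ_[p]) * d = n * d + d := by push_cast; ring
    rw [e]; exact this

theorem Drel_dvd {x : Perfection 𝓞_ℂ_[p] p} {d : 𝓞_ℂ_[p]} (h : Drel x d) (n : ℕ)
    (hx : x.1 n = 1) : (p : 𝓞_ℂ_[p]) ^ n ∣ d := by
  let δ : Perfection 𝓞_ℂ_[p] p := ⟨fun m => x.1 (m + n), fun m => by
    show x.1 (m + 1 + n) ^ p = x.1 (m + n)
    rw [Nat.add_right_comm]; exact x.2 (m + n)⟩
  have h1 : δ ^ p ^ n = x := Subtype.ext (funext fun m =>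
    Perfection.coeffMonoidHom_pow_p_pow' x m n)
  obtain ⟨e, he⟩ := Drel_exists δ (by show x.1 (0 + n) = 1; rw [zero_add, hx])
  have h2 := Drel_pow he (p ^ n)
  rw [h1] at h2
  rw [Drel_unique h h2, Nat.cast_pow]
  exact dvd_mul_right _ _

/-- Galois action on compatible systems. -/
def gmap (g : PadicAlgCl p ≃ₐ[ℚ_[p]] PadicAlgCl p) :
    Perfection 𝓞_ℂ_[p] p →* Perfection 𝓞_ℂ_[p] p :=
  Perfection.mapMonoidHom p (galO g).toMonoidHom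

theorem ainfMap_tau (g : PadicAlgCl p ≃ₐ[ℚ_[p]] PadicAlgCl p) (x : Perfection 𝓞_ℂ_[p] p) :
    ainfMap p (galO g) (tau x) = tau (gmap g x) := by
  rw [tau_apply, tau_apply, ainfMap, map_teichmuller]
  congr 1

theorem theta_zp (z : ℤ_[p]) : ((fontaineTheta 𝓞_ℂ_[p] p (zpToAinf 𝓞_ℂ_[p] p z) : 𝓞_ℂ_[p]) : ℂ_[p])
    = algebraMap ℚ_[p] ℂ_[p] (z : ℚ_[p]) := by
  have h3 : (p : ℝ)⁻¹ < 1 := inv_lt_one_of_one_lt₀ (by exact_mod_cast hp.out.one_lt)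
  let f : ℤ_[p] →+* ℂ_[p] := (𝓞_ℂ_[p]).subtype.comp
    ((fontaineTheta 𝓞_ℂ_[p] p).comp (zpToAinf 𝓞_ℂ_[p] p))
  let g : ℤ_[p] →+* ℂ_[p] := (algebraMap ℚ_[p] ℂ_[p]).comp PadicInt.Coe.ringHom
  have hf : ∀ z, ‖f z‖ ≤ 1 := fun z => (mem_int_iff p _).1
    (fontaineTheta 𝓞_ℂ_[p] p (zpToAinf 𝓞_ℂ_[p] p z)).2
  have hg : ∀ z, ‖g z‖ ≤ 1 := fun z => by
    show ‖algebraMap ℚ_[p] ℂ_[p] (z : ℚ_[p])‖ ≤ 1
    rw [norm_algebraMap']
    exact z.2
  show f z = g z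
  rw [← sub_eq_zero, ← norm_le_zero_iff]
  refine ge_of_tendsto' (tendsto_pow_atTop_nhds_zero_of_lt_one (by positivity) h3) fun n => ?_
  obtain ⟨w, hw⟩ := mem_span_singleton.1 (PadicInt.appr_spec n z)
  have e : z = (z.appr n : ℤ_[p]) + (p : ℤ_[p]) ^ n * w := by rw [← hw]; ring
  have e2 : f z - g z = (p : ℂ_[p]) ^ n * (f w + -g w) := by
    conv_lhs => rw [e]
    simp only [map_add, map_mul, map_pow, map_natCast]
    ring
  rw [e2, norm_mul, norm_pow, norm_p_C]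
  refine mul_le_of_le_one_right (by positivity) ?_
  exact (IsUltrametricDist.norm_add_le_max _ _).trans (max_le (hf w) (by rw [norm_neg]; exact hg w))

theorem Drel_eps : Drel (eps1 p ^ p) (etaO p 0 - 1) := by
  refine ⟨te1 p - 1, ?_, by rw [map_sub, theta_te1, map_one]⟩
  rw [map_pow, xi, geom_sum_mul]
  rfl

theorem galO_etaO (g : PadicAlgCl p ≃ₐ[ℚ_[p]] PadicAlgCl p) (n : ℕ) :
    galO g (etaO p n) = etaO p n ^ ((chiK g).toZModPow (n + 1)).val := by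
  apply Subtype.ext
  rw [SubmonoidClass.coe_pow, coe_etaO, ← map_pow, ← chiK_spec g (eta_prim n).pow_eq_one]
  exact galC_coe g _

theorem etaO_pow (n : ℕ) : etaO p n ^ p ^ (n + 1) = 1 := by
  apply Subtype.ext
  rw [SubmonoidClass.coe_pow, coe_etaO, ← map_pow, (eta_prim n).pow_eq_one, map_one]
  rfl

theorem Drel_gmap (g : PadicAlgCl p ≃ₐ[ℚ_[p]] PadicAlgCl p) {d : 𝓞_ℂ_[p]}
    (h : Drel (gmap g (eps1 p ^ p)) d) :
    d = fontaineTheta 𝓞_ℂ_[p] p (zpToAinf 𝓞_ℂ_[p] p (chiK g)) * (etaO p 0 - 1) := by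
  rw [IsHausdorff.eq_iff_smodEq (I := span {(p : 𝓞_ℂ_[p])})]
  intro n
  rw [smul_eq_mul, mul_top, span_singleton_pow, SModEq.sub_mem, mem_span_singleton]
  refine (pow_dvd_pow _ (Nat.le_succ n)).trans ?_
  set a := ((chiK g).toZModPow (n + 1)).val with ha
  have hlt : a < p ^ (n + 1) := ZMod.val_lt _
  have h1 := Drel_mul h (Drel_pow Drel_eps (p ^ (n + 1) - a))
  have h2 := Drel_dvd h1 (n + 1) (by
    have e : (eps1 p ^ p).1 (n + 1) = etaO p n := (eps1 p).2 n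
    show galO g ((eps1 p ^ p).1 (n + 1)) * (eps1 p ^ p).1 (n + 1) ^ (p ^ (n + 1) - a) = 1
    rw [e, galO_etaO, ← pow_add, Nat.add_sub_cancel' hlt.le, etaO_pow])
  have h3 : chiK g - a ∈ RingHom.ker (PadicInt.toZModPow (p := p) (n + 1)) := by
    rw [RingHom.mem_ker, map_sub, map_natCast, ha, ZMod.natCast_zmod_val, sub_self]
  rw [PadicInt.ker_toZModPow, mem_span_singleton] at h3
  have h4 := map_dvd ((fontaineTheta 𝓞_ℂ_[p] p).comp (zpToAinf 𝓞_ℂ_[p] p)) h3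
  rw [map_pow, map_natCast, map_sub, map_natCast, RingHom.comp_apply] at h4
  rw [Nat.cast_sub hlt.le, Nat.cast_pow] at h2
  set χ := fontaineTheta 𝓞_ℂ_[p] p (zpToAinf 𝓞_ℂ_[p] p (chiK g))
  have e : d - χ * (etaO p 0 - 1) = (d + ((p : 𝓞_ℂ_[p]) ^ (n + 1) - a) * (etaO p 0 - 1))
      - (p : 𝓞_ℂ_[p]) ^ (n + 1) * (etaO p 0 - 1) - (χ - a) * (etaO p 0 - 1) := by ring
  rw [e]
  exact dvd_sub (dvd_sub h2 (dvd_mul_right _ _)) (Dvd.dvd.mul_right h4 _)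

variable (p) in
/-- The element `ζ_p - 1` of `ℂ_p`. -/
def omega : ℂ_[p] := ((etaO p 0 - 1 : 𝓞_ℂ_[p]) : ℂ_[p])

theorem omega_ne : omega p ≠ 0 := by
  rw [omega, AddSubgroupClass.coe_sub, coe_etaO, OneMemClass.coe_one,
    ← map_one (algebraMap (PadicAlgCl p) ℂ_[p]), ← map_sub, map_ne_zero, sub_ne_zero]
  exact (eta_prim 0).ne_one (by simpa using hp.out.one_lt)

theorem exists_cocycle (g : PadicAlgCl p ≃ₐ[ℚ_[p]] PadicAlgCl p) :
    ∃ c, ainfMap p (galO g) (xi p) = xi p * c ∧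
      ((fontaineTheta 𝓞_ℂ_[p] p c : 𝓞_ℂ_[p]) : ℂ_[p]) * galC g (omega p) =
        algebraMap ℚ_[p] ℂ_[p] (chiK g : ℚ_[p]) * omega p := by
  obtain ⟨c, hc⟩ := xi_dvd (ainfMap p (galO g) (xi p))
    (by rw [theta_ainfMap, theta_xi, map_zero])
  refine ⟨c, hc, ?_⟩
  have h1 : Drel (gmap g (eps1 p ^ p))
      (fontaineTheta 𝓞_ℂ_[p] p c * galO g (etaO p 0 - 1)) := by
    refine ⟨c * ainfMap p (galO g) (te1 p - 1), ?_, ?_⟩
    · rw [← ainfMap_tau, ← mul_assoc, ← hc, ← map_mul, xi, geom_sum_mul, map_sub, map_one,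
        map_pow (tau (p := p))]
      rfl
    · rw [map_mul, theta_ainfMap, map_sub, theta_te1, map_one]
  have h2 := congrArg (fun z : 𝓞_ℂ_[p] => (z : ℂ_[p])) (Drel_gmap g h1)
  simp only [MulMemClass.coe_mul] at h2
  rw [theta_zp] at h2
  exact h2

end Pool.Agent.H478Z.FM
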