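import Mathlib
import Pool.Agent.H478Z.FM.Defs

set_option autoImplicit false

open Ideal

noncomputable section

namespace Pool.Agent.H478Z.FM

variable {S C : Type} [CommRing S] [Field C]

/-- `x` is `ξ ^ n * r` to first order, with `θ r = c`. -/
def Lead (I : Ideal S) (ξ : S) (θ : S →+* C) (x : AdicCompletion I S) (n : ℕ) (c : C) : Prop :=
  ∀ N, ∃ r, AdicCompletion.evalₐ I N x = Ideal.Quotient.mk _ (ξ ^ n * r) ∧ θ r = c

variable {I : Ideal S} {ξ : S} {θ : S →+* C}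

theorem Lead.mul {x y : AdicCompletion I S} {n m : ℕ} {c d : C} (hx : Lead I ξ θ x n c)
    (hy : Lead I ξ θ y m d) : Lead I ξ θ (x * y) (n + m) (c * d) := by
  intro N
  obtain ⟨r, hr, rfl⟩ := hx N
  obtain ⟨s, hs, rfl⟩ := hy N
  refine ⟨r * s, ?_, map_mul _ _ _⟩
  rw [map_mul, hr, hs, ← map_mul]
  congr 1
  ring

theorem Lead.of (n : ℕ) (r : S) : Lead I ξ θ (AdicCompletion.of I S (ξ ^ n * r)) n (θ r) :=
  fun N => ⟨r, AdicCompletion.evalₐ_of I N _, rfl⟩

theorem Lead.unique [IsDomain S] (hI : I = span {ξ}) (hξ : ξ ≠ 0) (hθ : θ ξ = 0)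
    {x : AdicCompletion I S} {n : ℕ} {c d : C} (h1 : Lead I ξ θ x n c) (h2 : Lead I ξ θ x n d) :
    c = d := by
  obtain ⟨r, hr, rfl⟩ := h1 (n + 1)
  obtain ⟨s, hs, rfl⟩ := h2 (n + 1)
  rw [hr, Ideal.Quotient.eq, hI, span_singleton_pow, mem_span_singleton, ← mul_sub, pow_succ,
    mul_dvd_mul_iff_left (pow_ne_zero n hξ)] at hs
  obtain ⟨t, ht⟩ := hs
  rw [← sub_eq_zero, ← map_sub, ht, map_mul, hθ, zero_mul]

theorem Lead.exists (hI : I = span {ξ}) (hθ : ∀ r, θ r = 0 ↔ ξ ∣ r)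
    {x : AdicCompletion I S} (hx : x ≠ 0) : ∃ n c, c ≠ 0 ∧ Lead I ξ θ x n c := by
  classical
  have h1 : ∃ m, AdicCompletion.evalₐ I m x ≠ 0 := by
    by_contra h
    push Not at h
    exact hx (AdicCompletion.ext_evalₐ fun n => by rw [h n, map_zero])
  have hmem : ∀ k a, a ∈ I ^ k ↔ ξ ^ k ∣ a := fun k a => by
    rw [hI, span_singleton_pow, mem_span_singleton]
  have h2 := Nat.find_spec h1
  have h3 : Nat.find h1 ≠ 0 := by
    intro h0
    rw [h0] at h2
    obtain ⟨a, ha⟩ := Ideal.Quotient.mk_surjective (AdicCompletion.evalₐ I 0 x)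
    apply h2
    rw [← ha, Ideal.Quotient.eq_zero_iff_mem, hmem, pow_zero]
    exact one_dvd _
  obtain ⟨n, hn⟩ := Nat.exists_eq_succ_of_ne_zero h3
  have h4 : AdicCompletion.evalₐ I n x = 0 := by
    by_contra h
    exact Nat.find_min h1 (by omega : n < Nat.find h1) h
  rw [hn] at h2
  obtain ⟨a, ha⟩ := Ideal.Quotient.mk_surjective (AdicCompletion.evalₐ I (n + 1) x)
  have h5 := factor_evalₐ I (Nat.le_succ n) x
  rw [h4, ← ha] at h5
  have h6 : ξ ^ n ∣ a := (hmem n a).1 (Ideal.Quotient.eq_zero_iff_mem.1 h5)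
  obtain ⟨r, rfl⟩ := h6
  refine ⟨n, θ r, fun h0 => h2 ?_, fun N => ?_⟩
  · rw [← ha, Ideal.Quotient.eq_zero_iff_mem, hmem, pow_succ]
    exact mul_dvd_mul_left _ ((hθ r).1 h0)
  · rcases le_total N (n + 1) with hN | hN
    · refine ⟨r, ?_, rfl⟩
      rw [← factor_evalₐ I hN x, ← ha]
      rfl
    · obtain ⟨b, hb⟩ := Ideal.Quotient.mk_surjective (AdicCompletion.evalₐ I N x)
      have h7 := factor_evalₐ I hN x
      rw [← hb, ← ha] at h7
      obtain ⟨t, ht⟩ := (hmem (n + 1) _).1 (Ideal.Quotient.eq.1 h7)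
      refine ⟨r + ξ * t, ?_, ?_⟩
      · rw [← hb]
        congr 1
        linear_combination ht
      · rw [map_add, (hθ (ξ * t)).2 (dvd_mul_right _ _), add_zero]

theorem Lead.map {f : S →+* S} {hf : Preserves I f} {σ : C →+* C} (hσ : ∀ r, θ (f r) = σ (θ r))
    {u : S} (hu : f ξ = ξ * u) {x : AdicCompletion I S} {n : ℕ} {c : C} (hx : Lead I ξ θ x n c) :
    Lead I ξ θ (adicMap I f hf x) n (θ u ^ n * σ c) := by
  intro N
  obtain ⟨r, hr, rfl⟩ := hx N
  refine ⟨u ^ n * f r, ?_, by rw [map_mul, map_pow, hσ]⟩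
  rw [evalₐ_adicMap, hr]
  change Ideal.Quotient.mk _ (f (ξ ^ n * r)) = _
  rw [map_mul, map_pow, hu, mul_pow, mul_assoc]

theorem Lead.denom [IsDomain S] (hI : I = span {ξ}) (hξ : ξ ≠ 0)
    {s : AdicCompletion I S}
    (hs : s ∈ denomsOf I) :
    ∃ k e, e ≠ 0 ∧ Lead I ξ θ s k e := by
  rw [denomsOf] at hs
  induction hs using Submonoid.closure_induction with
  | mem x hx =>
    obtain ⟨a, ha, rfl⟩ := hx
    have ha' : I = span {a} := ha
    obtain ⟨u, hu⟩ := span_singleton_eq_span_singleton.1 (hI.symm.trans ha')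
    refine ⟨1, θ u, (u.isUnit.map θ).ne_zero, ?_⟩
    rw [← hu, ← pow_one ξ]
    simpa using Lead.of (I := I) (ξ := ξ) (θ := θ) 1 u
  | one =>
    refine ⟨0, 1, one_ne_zero, fun N => ⟨1, by simp, map_one _⟩⟩
  | mul x y _ _ hx hy =>
    obtain ⟨k, e, he, h1⟩ := hx
    obtain ⟨l, f, hf, h2⟩ := hy
    exact ⟨k + l, e * f, mul_ne_zero he hf, h1.mul h2⟩

omit θ ξ in
theorem frac_eq (F : AdicCompletion I S →+* AdicCompletion I S) (hd : PreservesDenoms I F)
    (x : AdicCompletion I S) (s : denomsOf I) (w : S)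
    (h : fracMap I F hd (IsLocalization.mk' (Localization (denomsOf I)) x s) * toFrac I w =
      IsLocalization.mk' (Localization (denomsOf I)) x s) :
    ∃ s' : denomsOf I, s'.1 * (s.1 * (AdicCompletion.of I S w * F x)) = s'.1 * (F s.1 * x) := by
  set gs : denomsOf I := ⟨F s, hd s.2⟩ with hgsdef
  have h2 : fracMap I F hd (IsLocalization.mk' (Localization (denomsOf I)) x s) =
      IsLocalization.mk' (Localization (denomsOf I)) (F x) gs :=
    IsLocalization.map_mk' (S := Localization (denomsOf I)) (Q := Localization (denomsOf I))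
      hd x s
  have h3 : IsLocalization.mk' (Localization (denomsOf I)) (AdicCompletion.of I S w * F x) gs =
      IsLocalization.mk' (Localization (denomsOf I)) x s := by
    rw [← IsLocalization.mul_mk'_eq_mk'_of_mul, ← h2, mul_comm]
    exact h
  rw [IsLocalization.eq] at h3
  exact h3

end Pool.Agent.H478Z.FM
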