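import Mathlib
import Pool.Agent.H478Z.FM.Cocycle
import Pool.Agent.H478Z.FM.Lead

set_option autoImplicit false

open Ideal WittVector

noncomputable section

namespace Pool.Agent.H478Z.FM

variable {p : ℕ} [hp : Fact p.Prime]

theorem p_ne_C : (p : ℂ_[p]) ≠ 0 := by exact_mod_cast hp.out.ne_zero

variable (p) in
/-- `θ` with values in `ℂ_p`. -/
def thetaC : Localization.Away (p : WittVector p (PreTilt 𝓞_ℂ_[p] p)) →+* ℂ_[p] :=
  (Localization.awayLift (𝓞_ℂ_[p]).subtype (p : 𝓞_ℂ_[p])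
    (by rw [map_natCast]; exact (p_ne_C (p := p)).isUnit)).comp (fontaineThetaInvertP 𝓞_ℂ_[p] p)

theorem thetaC_algebraMap (a : WittVector p (PreTilt 𝓞_ℂ_[p] p)) :
    thetaC p (algebraMap _ _ a) = ((fontaineTheta 𝓞_ℂ_[p] p a : 𝓞_ℂ_[p]) : ℂ_[p]) := by
  rw [thetaC, RingHom.comp_apply, thetaInv_algebraMap]
  exact IsLocalization.Away.lift_eq _ _ _

variable (p) in
/-- The generator of `ker θ` after inverting `p`. -/
def xi' : Localization.Away (p : WittVector p (PreTilt 𝓞_ℂ_[p] p)) := algebraMap _ _ (xi p)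

theorem thetaC_eq_zero (r : Localization.Away (p : WittVector p (PreTilt 𝓞_ℂ_[p] p))) :
    thetaC p r = 0 ↔ xi' p ∣ r := by
  constructor
  · intro h
    obtain ⟨k, a, ha⟩ := IsLocalization.Away.surj (p : WittVector p (PreTilt 𝓞_ℂ_[p] p)) r
    have h1 := congrArg (thetaC p) ha
    rw [map_mul, h, zero_mul, thetaC_algebraMap, eq_comm, ZeroMemClass.coe_eq_zero] at h1
    have h2 := map_dvd (algebraMap _ (Localization.Away (p : WittVector p (PreTilt 𝓞_ℂ_[p] p))))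
      (xi_dvd a h1)
    rw [← ha] at h2
    exact ((IsLocalization.Away.algebraMap_isUnit
      (p : WittVector p (PreTilt 𝓞_ℂ_[p] p))).pow k).dvd_mul_right.1 h2
  · rintro ⟨s, rfl⟩
    rw [map_mul, xi', thetaC_algebraMap, theta_xi, ZeroMemClass.coe_zero, zero_mul]

theorem ker_eq_span : RingHom.ker (fontaineThetaInvertP 𝓞_ℂ_[p] p) = span {xi' p} := by
  apply le_antisymm
  · intro r hr
    rw [mem_span_singleton, ← thetaC_eq_zero, thetaC, RingHom.comp_apply, RingHom.mem_ker.1 hr,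
      map_zero]
  · rw [span_le, Set.singleton_subset_iff, SetLike.mem_coe, RingHom.mem_ker, xi',
      thetaInv_algebraMap, theta_xi, map_zero]

theorem p_ne_A : (p : WittVector p (PreTilt 𝓞_ℂ_[p] p)) ≠ 0 := by
  intro h
  have h1 := congrArg (fontaineTheta 𝓞_ℂ_[p] p) h
  rw [map_natCast, map_zero] at h1
  exact hp.out.ne_zero (by exact_mod_cast h1)

instance awayDomain : IsDomain (Localization.Away (p : WittVector p (PreTilt 𝓞_ℂ_[p] p))) :=
  IsLocalization.isDomain_localization (powers_le_nonZeroDivisors_of_noZeroDivisors p_ne_A)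

theorem xi'_ne : xi' p ≠ 0 := by
  intro h
  apply xi_ne (p := p)
  apply IsLocalization.injective (Localization.Away (p : WittVector p (PreTilt 𝓞_ℂ_[p] p)))
    (powers_le_nonZeroDivisors_of_noZeroDivisors p_ne_A)
  rw [map_zero]
  exact h

theorem thetaC_gal (g : PadicAlgCl p ≃ₐ[ℚ_[p]] PadicAlgCl p)
    (r : Localization.Away (p : WittVector p (PreTilt 𝓞_ℂ_[p] p))) :
    thetaC p (ainfInvMap p (galO g) r) = galC g (thetaC p r) := by
  have h : (thetaC p).comp (ainfInvMap p (galO g)) =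
      (galC g).comp (thetaC p) := by
    refine IsLocalization.ringHom_ext
      (Submonoid.powers (p : WittVector p (PreTilt 𝓞_ℂ_[p] p))) ?_
    refine RingHom.ext fun a => ?_
    simp only [RingHom.comp_apply, ainfInvMap_algebraMap, thetaC_algebraMap, theta_ainfMap]
    rfl
  exact RingHom.congr_fun h r

theorem chiC_ne (g : PadicAlgCl p ≃ₐ[ℚ_[p]] PadicAlgCl p) :
    algebraMap ℚ_[p] ℂ_[p] (chiK g : ℚ_[p]) ≠ 0 := by
  rw [map_ne_zero, ← norm_pos_iff, PadicInt.padic_norm_e_of_padicInt, norm_chiK]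
  exact one_pos

theorem tate_int (y : ℂ_[p]) (hy : y ≠ 0) (j : ℤ) (hj : j ≠ 0)
    (h : ∀ g, galC g y = algebraMap ℚ_[p] ℂ_[p] (chiK g : ℚ_[p]) ^ j * y) : False := by
  have h2 : ∀ (g : PadicAlgCl p ≃ₐ[ℚ_[p]] PadicAlgCl p) (x y : ℂ_[p]),
      ‖galC g x - galC g y‖ = ‖x - y‖ := fun g x y => by rw [← map_sub, norm_galC]
  obtain ⟨k, rfl | rfl⟩ := Int.eq_nat_or_neg j
  · refine tate (fun g => galC g) galC_coe h2 y hy k (by omega) fun g => ?_
    rw [h g, zpow_natCast, PadicInt.coe_pow, map_pow]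
  · refine tate (fun g => galC g) galC_coe h2 y⁻¹ (inv_ne_zero hy) k (by omega) fun g => ?_
    rw [map_inv₀, h g, zpow_neg, zpow_natCast, PadicInt.coe_pow, map_pow, mul_inv, inv_inv]

theorem Lead.congr {S C : Type} [CommRing S] [Field C] {I : Ideal S} {ξ : S} {θ : S →+* C}
    {x y : AdicCompletion I S} {n : ℕ} {c : C} (h : Lead I ξ θ x n c) (hxy : x = y) :
    Lead I ξ θ y n c := hxy ▸ h

theorem final_alg {C : Type} [Field C] (σ : C →+* C) {χ ω e U ψ c : C} {n k : ℕ} (hχ : χ ≠ 0)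
    (hω : ω ≠ 0) (he : e ≠ 0) (hu2 : U * σ ω = χ * ω)
    (h5 : e * (ψ * (U ^ n * σ c)) = U ^ k * σ e * c) :
    σ (c / e * ω ^ ((k : ℤ) - n)) * ψ = χ ^ ((k : ℤ) - n) * (c / e * ω ^ ((k : ℤ) - n)) := by
  have hge : σ e ≠ 0 := (map_ne_zero _).2 he
  have hU : U ≠ 0 := by
    intro h0
    rw [h0, zero_mul] at hu2
    exact mul_ne_zero hχ hω hu2.symm
  have hgω' : σ ω = χ * ω / U := by
    rw [← hu2]; field_simp
  rw [map_mul, map_div₀, map_zpow₀, hgω', div_zpow, mul_zpow, zpow_sub₀ hU, zpow_natCast,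
    zpow_natCast]
  field_simp
  linear_combination h5

theorem not_deRham (ψ : (PadicAlgCl p ≃ₐ[ℚ_[p]] PadicAlgCl p) → ℤ_[p]ˣ) (M : ℕ) (hM : M ≠ 0)
    (hψ : ∀ g, (ψ g : ℤ_[p]) ^ (2 * M) * chiK g ^ M = 1) : ¬ IsDeRhamChar ψ := by
  rintro ⟨b, hb, h⟩
  obtain ⟨⟨x, s⟩, rfl⟩ := IsLocalization.mk'_surjective (denomsOf (kerTheta (OC p) p))
    (S := Localization (denomsOf (kerTheta (OC p) p))) b
  have hx : x ≠ 0 := by
    rintro rfl
    exact hb (IsLocalization.mk'_zero (S := Localization (denomsOf (kerTheta (OC p) p))) s)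
  obtain ⟨n, c, hc, hxl⟩ := Lead.exists (θ := thetaC p) ker_eq_span thetaC_eq_zero hx
  obtain ⟨k, e, he, hsl⟩ := Lead.denom (θ := thetaC p) ker_eq_span xi'_ne s.2
  have key : ∀ g, galC g (c / e * omega p ^ ((k : ℤ) - n)) *
      algebraMap ℚ_[p] ℂ_[p] ((ψ g : ℤ_[p]) : ℚ_[p]) =
      algebraMap ℚ_[p] ℂ_[p] (chiK g : ℚ_[p]) ^ ((k : ℤ) - n) *
        (c / e * omega p ^ ((k : ℤ) - n)) := by
    intro g
    obtain ⟨u, hu1, hu2⟩ := exists_cocycle g
    have hu3 : ainfInvMap p (galO g) (xi' p) =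
        xi' p * algebraMap _ _ u := by
      rw [xi', ainfInvMap_algebraMap, hu1, map_mul]
    have hgx := Lead.map (hf := ker_le_comap p _) (thetaC_gal g) hu3 hxl
    have hgs := Lead.map (hf := ker_le_comap p _) (thetaC_gal g) hu3 hsl
    have hz := Lead.of (I := RingHom.ker (fontaineThetaInvertP 𝓞_ℂ_[p] p)) (ξ := xi' p)
      (θ := thetaC p) 0 (algebraMap _ _ (zpToAinf 𝓞_ℂ_[p] p (ψ g : ℤ_[p])))
    rw [pow_zero, one_mul, thetaC_algebraMap, theta_zp] at hz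
    rw [thetaC_algebraMap] at hgx hgs
    obtain ⟨s', hs'⟩ := frac_eq _ (denoms_le_comap p (galO g) (galO_bijective g)) x s
      (zpToAinfInv (OC p) p (ψ g : ℤ_[p])) (h g)
    obtain ⟨k', e', he', hsl'⟩ := Lead.denom (θ := thetaC p) ker_eq_span xi'_ne s'.2
    have l1 := hsl'.mul (hsl.mul (hz.mul hgx))
    have l2 := hsl'.mul (hgs.mul hxl)
    rw [zero_add] at l1
    have h4 := Lead.unique ker_eq_span xi'_ne ((thetaC_eq_zero _).2 dvd_rfl) (Lead.congr l1 hs') l2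
    have h5 := mul_left_cancel₀ he' h4
    exact final_alg (galC g) (chiC_ne g) omega_ne he hu2 h5
  have hy : c / e * omega p ^ ((k : ℤ) - n) ≠ 0 :=
    mul_ne_zero (div_ne_zero hc he) (zpow_ne_zero _ omega_ne)
  set y := c / e * omega p ^ ((k : ℤ) - n)
  refine tate_int (y ^ (2 * M)) (pow_ne_zero _ hy) (M * (1 + 2 * ((k : ℤ) - n)))
    (mul_ne_zero (by exact_mod_cast hM) (by omega)) fun g => ?_
  have h1 := congrArg (fun z : ℤ_[p] => algebraMap ℚ_[p] ℂ_[p] (z : ℚ_[p])) (hψ g)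
  simp only [PadicInt.coe_mul, PadicInt.coe_pow, PadicInt.coe_one, map_mul, map_pow, map_one] at h1
  have h2 := congrArg (· ^ (2 * M)) (key g)
  simp only [mul_pow] at h2
  set χ := algebraMap ℚ_[p] ℂ_[p] (chiK g : ℚ_[p])
  have hχ : χ ≠ 0 := chiC_ne g
  have e : χ ^ ((M : ℤ) * (1 + 2 * ((k : ℤ) - n))) = χ ^ M * (χ ^ ((k : ℤ) - n)) ^ (2 * M) := by
    rw [← zpow_natCast, ← zpow_natCast, ← zpow_mul, ← zpow_add₀ hχ]
    congr 1
    push_cast
    ring
  rw [map_pow, e, mul_assoc, ← h2]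
  linear_combination (-(galC g y) ^ (2 * M)) * h1

end Pool.Agent.H478Z.FM
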