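import Mathlib
import Pool.Agent.H478Z.FM.NotDR

set_option autoImplicit false

open Polynomial

noncomputable section

namespace Pool.Agent.H478Z.FM

section roots
variable {l : ℕ} [hl : Fact l.Prime]

theorem toZMod_eq_zero (x : ℤ_[l]) : PadicInt.toZMod x = 0 ↔ ‖x‖ < 1 := by
  rw [← RingHom.mem_ker, PadicInt.ker_toZMod, IsLocalRing.mem_maximalIdeal, PadicInt.mem_nonunits]

theorem norm_pow_sub {N : ℕ} (hN : (N : ZMod l) ≠ 0) {u v : ℤ_[l]} (hu : PadicInt.toZMod u = 1)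
    (hv : PadicInt.toZMod v = 1) : ‖u ^ N - v ^ N‖ = ‖u - v‖ := by
  rw [← geom_sum₂_mul, norm_mul]
  have h : ‖∑ i ∈ Finset.range N, u ^ i * v ^ (N - 1 - i)‖ = 1 := by
    refine le_antisymm (PadicInt.norm_le_one _) (not_lt.1 fun h => hN ?_)
    rw [← toZMod_eq_zero, map_sum] at h
    simpa [hu, hv] using h
  rw [h, one_mul]

theorem exists_root {N : ℕ} (hN : (N : ZMod l) ≠ 0) {w : ℤ_[l]} (hw : PadicInt.toZMod w = 1) :
    ∃ r : ℤ_[l], PadicInt.toZMod r = 1 ∧ r ^ N = w := by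
  have h1 : ‖(derivative (X ^ N - C w : ℤ_[l][X])).aeval (1 : ℤ_[l])‖ = 1 := by
    refine le_antisymm (PadicInt.norm_le_one _) (not_lt.1 fun h => hN ?_)
    rw [← toZMod_eq_zero] at h
    simpa [derivative_X_pow] using h
  obtain ⟨z, hz1, hz2, -⟩ := hensels_lemma (F := (X ^ N - C w : ℤ_[l][X])) (a := 1) (by
    rw [h1, one_pow, ← toZMod_eq_zero]
    simp [hw])
  rw [h1, ← toZMod_eq_zero, map_sub, map_one, sub_eq_zero] at hz2
  refine ⟨z, hz2, ?_⟩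
  simpa [sub_eq_zero] using hz1

theorem exists_rho {G : Type} [Group G] [TopologicalSpace G] [ContinuousInv G] (hl2 : l ≠ 2)
    (χ : G →* ℤ_[l]ˣ) (hχ : Continuous χ) :
    ∃ ρ : G →* ℤ_[l]ˣ, Continuous ρ ∧ (∀ σ, χ σ = 1 → ρ σ = 1) ∧
      ∀ σ, (ρ σ : ℤ_[l]) ^ (2 * (l - 1)) = (χ σ⁻¹ : ℤ_[l]) ^ (l - 1) := by
  have hN : ((2 * (l - 1) : ℕ) : ZMod l) ≠ 0 := by
    rw [Nat.cast_mul, Nat.cast_sub hl.out.one_le]
    refine mul_ne_zero ?_ (by simp)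
    rw [Ne, ZMod.natCast_eq_zero_iff, Nat.prime_dvd_prime_iff_eq hl.out Nat.prime_two]
    exact hl2
  have hw : ∀ σ, PadicInt.toZMod ((χ σ⁻¹ : ℤ_[l]) ^ (l - 1)) = 1 := fun σ => by
    rw [map_pow]
    exact ZMod.pow_card_sub_one_eq_one ((χ σ⁻¹).isUnit.map PadicInt.toZMod).ne_zero
  choose r hr1 hr2 using fun σ => exists_root hN (hw σ)
  have huniq : ∀ σ u, PadicInt.toZMod u = 1 → u ^ (2 * (l - 1)) = (χ σ⁻¹ : ℤ_[l]) ^ (l - 1) →
      r σ = u := by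
    intro σ u h1 h2
    rw [← sub_eq_zero, ← norm_eq_zero, ← norm_pow_sub hN (hr1 σ) h1, hr2, h2, sub_self, norm_zero]
  let f : G →* ℤ_[l] :=
    { toFun := r
      map_one' := huniq 1 1 (map_one _) (by simp)
      map_mul' := fun σ τ => huniq _ _ (by rw [map_mul, hr1, hr1, one_mul]) (by
        rw [mul_pow, hr2, hr2, mul_inv_rev, map_mul, Units.val_mul, mul_pow, mul_comm]) }
  refine ⟨f.toHomUnits, Continuous.of_coeHom_comp ?_, fun σ h => ?_, hr2⟩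
  · show Continuous r
    have hc : Continuous fun σ : G => (χ σ⁻¹ : ℤ_[l]) ^ (l - 1) :=
      (Units.continuous_val.comp (hχ.comp continuous_inv)).pow _
    rw [continuous_iff_continuousAt] at hc ⊢
    intro σ
    have h := hc σ
    rw [ContinuousAt, tendsto_iff_norm_sub_tendsto_zero] at h ⊢
    refine h.congr fun τ => ?_
    rw [← hr2, ← hr2, norm_pow_sub hN (hr1 _) (hr1 _)]
  · apply Units.ext
    exact huniq σ 1 (map_one _) (by simp [h])

end roots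

theorem root_sep {K : Type} [NormedField K] [IsUltrametricDist K] {N : ℕ} (hN : ‖(N : K)‖ = 1)
    {ζ ξ : K} (hζ : ζ ^ N = 1) (hξ : ξ ^ N = 1) (h : ‖ζ - ξ‖ < 1) : ζ = ξ := by
  have hN0 : N ≠ 0 := by
    rintro rfl
    simp at hN
  have h1 : ‖ξ‖ = 1 := norm_root hN0 hξ
  have hξ0 : ξ ≠ 0 := by
    rintro rfl
    simp at h1
  set η := ζ / ξ with hη
  have h2 : η ^ N = 1 := by rw [hη, div_pow, hζ, hξ, div_one]
  have h3 : ‖1 - η‖ < 1 := by
    have : 1 - η = (ξ - ζ) / ξ := by rw [hη]; field_simp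
    rw [this, norm_div, h1, div_one, norm_sub_rev]
    exact h
  by_contra hne
  have h4 : η ≠ 1 := fun h => hne ((div_eq_one_iff_eq hξ0).1 h)
  have h5 : ∑ i ∈ Finset.range N, η ^ i = 0 := by
    have := geom_sum_mul η N
    rw [h2, sub_self] at this
    exact (mul_eq_zero.1 this).resolve_right (sub_ne_zero.2 h4)
  have h6 : (N : K) = ∑ i ∈ Finset.range N, (1 - η ^ i) := by
    rw [Finset.sum_sub_distrib, h5]; simp
  have h7 : ‖∑ i ∈ Finset.range N, (1 - η ^ i)‖ ≤ ‖1 - η‖ :=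
    IsUltrametricDist.norm_sum_le_of_forall_le_of_nonneg (norm_nonneg _) fun i _ =>
      norm_one_sub_pow_le (norm_root hN0 h2).le i
  rw [← h6, hN] at h7
  linarith

variable {l : ℕ} [hl : Fact l.Prime]

theorem exists_primQ (n : ℕ) : ∃ ζ : AlgebraicClosure ℚ, IsPrimitiveRoot ζ (l ^ n) := by
  have : NeZero (l : ℚ) := ⟨by exact_mod_cast hl.out.ne_zero⟩
  exact HasEnoughRootsOfUnity.exists_primitiveRoot _ _

instance enoughQ (i : ℕ) : HasEnoughRootsOfUnity (AlgebraicClosure ℚ) (l ^ i) :=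
  ⟨exists_primQ i, rootsOfUnity.isCyclic _ _⟩

variable (l) in
/-- The global cyclotomic character. -/
def chiQ : (AlgebraicClosure ℚ ≃ₐ[ℚ] AlgebraicClosure ℚ) →* ℤ_[l]ˣ :=
  (cyclotomicCharacter (AlgebraicClosure ℚ) l).comp
    (MulSemiringAction.toRingAut (AlgebraicClosure ℚ ≃ₐ[ℚ] AlgebraicClosure ℚ) _)

theorem continuous_chiQ : Continuous (chiQ l) := cyclotomicCharacter.continuous l ℚ _

theorem chiQ_spec (σ : AlgebraicClosure ℚ ≃ₐ[ℚ] AlgebraicClosure ℚ) {n : ℕ}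
    {ζ : AlgebraicClosure ℚ} (h : ζ ^ l ^ n = 1) :
    σ ζ = ζ ^ ((chiQ l σ : ℤ_[l]).toZModPow n).val :=
  cyclotomicCharacter.spec l σ.toRingEquiv ζ h

theorem chiQ_eq (σ : AlgebraicClosure ℚ ≃ₐ[ℚ] AlgebraicClosure ℚ) (a : ℕ)
    (h : ∀ n (ζ : AlgebraicClosure ℚ), ζ ^ l ^ n = 1 → σ ζ = ζ ^ a) : (chiQ l σ : ℤ_[l]) = a := by
  refine PadicInt.ext_of_toZModPow.mp fun n => ?_
  obtain ⟨ζ, hζ⟩ := exists_primQ (l := l) n
  rw [map_natCast]
  exact chi_eq_of_pow σ.toRingEquiv hζ (h n ζ hζ.pow_eq_one)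

theorem chiQ_res (ι : AlgebraicClosure ℚ →+* PadicAlgCl l)
    (g : PadicAlgCl l ≃ₐ[ℚ_[l]] PadicAlgCl l) : (chiQ l (res ι g) : ℤ_[l]) = chiK g := by
  refine PadicInt.ext_of_toZModPow.mp fun n => ?_
  obtain ⟨ζ, hζ⟩ := exists_primQ (l := l) n
  have h1 := chi_eq_of_pow g.toRingEquiv (hζ.map_of_injective ι.injective)
    (a := ((chiQ l (res ι g) : ℤ_[l]).toZModPow n).val) (by
      rw [← map_pow, ← chiQ_spec _ hζ.pow_eq_one, res_spec]; rfl)
  rw [ZMod.natCast_zmod_val] at h1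
  exact h1.symm

variable {p : ℕ} [hp : Fact p.Prime]

theorem norm_l_pow (hpl : p ≠ l) (n : ℕ) : ‖((l ^ n : ℕ) : PadicAlgCl p)‖ = 1 :=
  norm_nat_K _ fun h => hpl
    ((Nat.prime_dvd_prime_iff_eq hp.out hl.out).1 (hp.out.dvd_of_dvd_pow h))

theorem chiQ_inertia (hpl : p ≠ l) (ι : AlgebraicClosure ℚ →+* PadicAlgCl p)
    (g : PadicAlgCl p ≃ₐ[ℚ_[p]] PadicAlgCl p) (hg : IsInertia g) : chiQ l (res ι g) = 1 := by
  apply Units.ext
  have := chiQ_eq (l := l) (res ι g) 1 fun n ζ hζ => by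
    have h1 : ι ζ ^ l ^ n = 1 := by rw [← map_pow, hζ, map_one]
    apply ι.injective
    rw [pow_one, res_spec]
    exact root_sep (norm_l_pow hpl n) (by rw [← map_pow, h1, map_one]) h1
      (hg _ (norm_root (pow_ne_zero _ hl.out.ne_zero) h1).le)
  simpa using this

theorem chiQ_frob (hpl : p ≠ l) (ι : AlgebraicClosure ℚ →+* PadicAlgCl p)
    (g : PadicAlgCl p ≃ₐ[ℚ_[p]] PadicAlgCl p) (hg : IsGeomFrob g) :
    (chiQ l (res ι g)⁻¹ : ℤ_[l]) = p := by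
  refine chiQ_eq (l := l) (res ι g)⁻¹ p fun n ζ hζ => ?_
  have h1 : ι ζ ^ l ^ n = 1 := by rw [← map_pow, hζ, map_one]
  have h2 : g (ι ζ) ^ p = ι ζ :=
    root_sep (norm_l_pow hpl n)
      (by rw [← pow_mul, mul_comm, pow_mul, ← map_pow, h1, map_one, one_pow]) h1
      (hg _ (norm_root (pow_ne_zero _ hl.out.ne_zero) h1).le)
  rw [← res_spec, ← map_pow, ← map_pow] at h2
  have h3 := ι.injective h2
  conv_lhs => rw [← h3]
  exact (res ι g).symm_apply_apply _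

theorem weil_of_pow {α : ℚ_[l]} {M : ℕ} (hM : M ≠ 0) (h : α ^ (2 * M) = (p : ℚ_[l]) ^ M) :
    IsIntegral ℤ α ∧ ∀ z : ℂ, aeval z (minpoly ℚ α) = 0 → ‖z‖ = Real.sqrt p := by
  constructor
  · refine IsIntegral.of_pow (n := 2 * M) (by omega) ?_
    rw [h]
    exact (isIntegral_natCast p).pow M
  · intro z hz
    have h1 : minpoly ℚ α ∣ X ^ (2 * M) - C ((p : ℚ) ^ M) := minpoly.dvd ℚ α (by simp [h])
    have h2 := aeval_eq_zero_of_dvd_aeval_eq_zero h1 hz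
    simp only [map_sub, map_pow, aeval_X, map_natCast, sub_eq_zero] at h2
    have h3 := congrArg norm h2
    rw [norm_pow, norm_pow, Complex.norm_natCast, pow_mul] at h3
    have h4 := (pow_left_inj₀ (by positivity) (by positivity) hM).1 h3
    rw [← h4, Real.sqrt_sq (norm_nonneg _)]

theorem main0 (hl2 : l ≠ 2) :
    ∃ ρ : (AlgebraicClosure ℚ ≃ₐ[ℚ] AlgebraicClosure ℚ) →* ℤ_[l]ˣ, Continuous ρ ∧
      (∀ (p : ℕ) [Fact p.Prime], p ≠ l → ∀ (ι : AlgebraicClosure ℚ →+* PadicAlgCl p)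
        (g : PadicAlgCl p ≃ₐ[ℚ_[p]] PadicAlgCl p),
          (IsInertia g → ρ (res ι g) = 1) ∧
          (IsGeomFrob g → IsIntegral ℤ ((ρ (res ι g) : ℤ_[l]) : ℚ_[l]) ∧
            ∀ z : ℂ, aeval z (minpoly ℚ ((ρ (res ι g) : ℤ_[l]) : ℚ_[l])) = 0 →
              ‖z‖ = Real.sqrt p)) ∧
      ∀ ι : AlgebraicClosure ℚ →+* PadicAlgCl l, ¬ IsDeRhamChar fun g => ρ (res ι g) := by
  obtain ⟨ρ, h1, h2, h3⟩ := exists_rho hl2 (chiQ l) continuous_chiQ
  have hM : l - 1 ≠ 0 := by have := hl.out.two_le; omega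
  refine ⟨ρ, h1, fun p _ hpl ι g => ⟨fun hg => h2 _ (chiQ_inertia hpl ι g hg), fun hg => ?_⟩,
    fun ι => not_deRham _ (l - 1) hM fun g => ?_⟩
  · refine weil_of_pow hM ?_
    have h4 := h3 (res ι g)
    rw [chiQ_frob hpl ι g hg] at h4
    have h5 := congrArg (fun z : ℤ_[l] => (z : ℚ_[l])) h4
    simpa using h5
  · rw [h3, ← chiQ_res ι g, ← mul_pow, ← Units.val_mul, ← map_mul, inv_mul_cancel, map_one,
      Units.val_one, one_pow]

theorem main (hl2 : l ≠ 2) :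
    ∃ ρ : Field.absoluteGaloisGroup ℚ →* ℤ_[l]ˣ, Continuous ρ ∧
      (∀ (p : ℕ) [Fact p.Prime], p ≠ l → ∀ (ι : AlgebraicClosure ℚ →+* PadicAlgCl p)
        (g : PadicAlgCl p ≃ₐ[ℚ_[p]] PadicAlgCl p),
          (IsInertia g → ρ (res ι g) = 1) ∧
          (IsGeomFrob g → IsIntegral ℤ ((ρ (res ι g) : ℤ_[l]) : ℚ_[l]) ∧
            ∀ z : ℂ, aeval z (minpoly ℚ ((ρ (res ι g) : ℤ_[l]) : ℚ_[l])) = 0 →
              ‖z‖ = Real.sqrt p)) ∧
      ∀ ι : AlgebraicClosure ℚ →+* PadicAlgCl l, ¬ IsDeRhamChar fun g => ρ (res ι g) :=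
  main0 hl2

/-- Sanity check: the trivial character is de Rham (in particular `B_dR` is not the zero ring). -/
theorem trivial_deRham : IsDeRhamChar (p := p) fun _ => 1 := by
  refine ⟨1, fun h => ?_, fun g => by simp⟩
  have h1 : algebraMap _ (Localization (denomsOf (kerTheta (OC p) p))) (1 : AdicCompletion (kerTheta (OC p) p) (AinfInv (OC p) p)) = 0 := by
    rw [map_one]; exact h
  obtain ⟨s, hs⟩ := (IsLocalization.map_eq_zero_iff (denomsOf (kerTheta (OC p) p)) _ _).1 h1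
  rw [mul_one] at hs
  obtain ⟨k, e, he, hk⟩ := Lead.denom (θ := thetaC p) ker_eq_span xi'_ne s.2
  have h2 := Lead.of (I := RingHom.ker (fontaineThetaInvertP 𝓞_ℂ_[p] p)) (ξ := xi' p)
    (θ := thetaC p) k 0
  rw [mul_zero, map_zero, map_zero] at h2
  exact he (Lead.unique ker_eq_span xi'_ne ((thetaC_eq_zero _).2 dvd_rfl) (Lead.congr hk hs) h2)

end Pool.Agent.H478Z.FM
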